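import Pool.Agent.Q286.TR.EQ

set_option autoImplicit false

/-!
# The L-function of an elliptic curve, with its degree and conductor (copy of `TR.exE`)
-/

namespace Pool.Agent.Q286.XG

open UpperHalfPlane hiding I
open MatrixGroups CongruenceSubgroup
open Complex MeasureTheory Filter Topology
open Pool.Agent.W355.UN (Raw RawL Conv lam2 Eu2 eu2_of isNewf_of tw_raw)
open Pool.Agent.W169.HF (IsForm coef)
open Pool.Agent.H304R3.HK (ts gen_log)
open Pool.Agent.Q286.TR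
open Pool.Agent.W355.UN (facE fac_eq cser prod_get Pk.uniq)

section

variable {N : ℕ} {f : CuspForm (Gamma0 N : Subgroup (GL (Fin 2) ℝ)) 2} {w : ℝ}

/-- the L-function of an elliptic curve -/
theorem exE2 [NeZero N] (hf : IsForm N f w) {Λ : ℂ → ℂ} (hd : Differentiable ℂ Λ)
    (hs : ∀ s : ℂ, 2 < s.re → Λ s = ((Real.sqrt N / (2 * Real.pi) : ℝ) : ℂ) ^ s * Complex.Gamma s *
      ∑' n : ℕ, coef f (n + 1) * ((n + 1 : ℕ) : ℂ) ^ (-s)) :
    ∃ L : LFunction, L.m = 2 ∧ L.Q = N ∧ (∀ (a : ℝ) (g : ℝ → ℂ), W L a g = WE N (trF N (coef f)) a g) ∧ SelfDual L ∧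
      ∃ k : ℂ, k ≠ 0 ∧ ∀ s, L.Λ s = k * Λ (s + (1 - 1 / 2)) := by
  have hE := eu2_of hf
  have hN : (0 : ℝ) < N := by exact_mod_cast Nat.pos_of_ne_zero (NeZero.ne N)
  obtain ⟨c, X, h⟩ := tw_raw (f := f) hE (isNewf_of hf) (1 : DirichletCharacter ℂ 1)
    (DirichletCharacter.isPrimitive_one_level_one) (Nat.coprime_one_left N)
  have e1 : (fun n : ℕ => (1 : DirichletCharacter ℂ 1) ((n : ℕ) : ZMod 1) * lam2 f n) = lam2 f := by
    funext n
    rw [one_apply1, one_mul]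
  have e2 : (N : ℝ) * ((1 : ℕ) : ℝ) ^ 2 = N := by simp
  have hcs : ∀ s : ℂ, cser 0 ((N : ℝ) * ((1 : ℕ) : ℝ) ^ 2) [(((1 / 2 : ℝ)) : ℂ), (((3 / 2 : ℝ)) : ℂ)]
      (fun n => (1 : DirichletCharacter ℂ 1) (n : ZMod 1) * lam2 f n) s =
      cser 0 N [(((1 / 2 : ℝ)) : ℂ), (((3 / 2 : ℝ)) : ℂ)] (lam2 f) s := fun s => by rw [e1, e2]
  have hfac := fun (s : ℂ) (hs : 1 < s.re) => fac_eq (N := N) hE one_pos (1 : DirichletCharacter ℂ 1) hs
  rw [e1, e2] at h
  have ha : ∀ j : Fin ([(((1 / 2 : ℝ)) : ℂ), (((3 / 2 : ℝ)) : ℂ)]).length,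
      -1 / 2 < (([(((1 / 2 : ℝ)) : ℂ), (((3 / 2 : ℝ)) : ℂ)]).get j).re := by
    intro j
    have := List.get_mem [(((1 / 2 : ℝ)) : ℂ), (((3 / 2 : ℝ)) : ℂ)] j
    simp only [List.mem_cons, List.not_mem_nil, or_false] at this
    rcases this with h | h <;> rw [h, Complex.ofReal_re] <;> norm_num
  have hi : ∀ j : Fin ([(((1 / 2 : ℝ)) : ℂ), (((3 / 2 : ℝ)) : ℂ)]).length,
      (([(((1 / 2 : ℝ)) : ℂ), (((3 / 2 : ℝ)) : ℂ)]).get j).im = 0 := by
    intro j
    have := List.get_mem [(((1 / 2 : ℝ)) : ℂ), (((3 / 2 : ℝ)) : ℂ)] j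
    simp only [List.mem_cons, List.not_mem_nil, or_false] at this
    rcases this with h | h <;> rw [h, Complex.ofReal_im]
  refine ⟨ofRaw h ha, rfl, rfl, fun a g => ?_, ?_, 2 * ((Real.sqrt N : ℝ) : ℂ) ^ (-(1 / 2) : ℂ), ?_, fun s => ?_⟩
  · unfold W WE
    have e3 : (ofRaw h ha).r = 0 := rfl
    have e4 : (ofRaw h ha).Q = N := rfl
    rw [e3, e4, Nat.cast_zero, mul_zero, zero_mul, zero_add]
    congr 1
    · congr 1
      refine integral_congr_ae (Eventually.of_forall fun t => ?_)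
      simp only [mc_line]
      congr 1
      have e5 : ∑ j, ((digamma ((1 / 2 + t * I + (ofRaw h ha).α j) / 2)).re - Real.log Real.pi) =
          ((digamma ((1 + t * I) / 2)).re - Real.log Real.pi) + ((digamma ((2 + t * I) / 2)).re - Real.log Real.pi) := by
        show ∑ j : Fin 2, ((digamma ((1 / 2 + t * I + ([(((1 / 2 : ℝ)) : ℂ), (((3 / 2 : ℝ)) : ℂ)]).get j) / 2)).re - Real.log Real.pi) = _
        rw [Fin.sum_univ_two]
        congr 3
        · congr 2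
          show 1 / 2 + t * I + (((1 / 2 : ℝ)) : ℂ) = _
          push_cast
          ring
        · congr 2
          show 1 / 2 + t * I + (((3 / 2 : ℝ)) : ℂ) = _
          push_cast
          ring
      rw [e5]
      have e6 := digamma_dup (t := t)
      have e7 : Real.log (2 * Real.pi) = Real.log 2 + Real.log Real.pi := Real.log_mul (by norm_num) Real.pi_pos.ne'
      rw [e7]
      linarith
    · refine congrArg (fun z : ℂ => 2 * z.re) (Finset.sum_congr rfl fun n _ => ?_)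
      congr 1
      show ((ArithmeticFunction.vonMangoldt n : ℝ) : ℂ) / ((Real.sqrt n : ℝ) : ℂ) * c n = _
      rw [← cN_eq, div_mul_eq_mul_div, div_mul_eq_mul_div, conv_uniq hE.one h.conv (conv_cN hf) n]
  · obtain ⟨L, hL⟩ : ∃ L : LFunction, L = ofRaw h ha := ⟨_, rfl⟩
    refine ⟨(ofRaw h ha).w, fun h0 => ?_, fun s => ?_⟩
    · have := (ofRaw h ha).w_norm
      rw [h0, norm_zero] at this
      exact zero_ne_one this
    · refine Pool.Agent.Q240.CG.real_fe (ofRaw h ha).one_le_Q (ofRaw h ha).entire (ofRaw h ha).fe (ofRaw h ha).dirichlet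
        (fun n => ?_) (fun j => hi j) s
      show (lam2 f n).im = 0
      unfold lam2
      rw [Complex.mul_im, Complex.ofReal_im, mul_zero, zero_add]
      have := hf.real n
      unfold coef at this
      rw [this, zero_mul]
  · refine mul_ne_zero two_ne_zero ?_
    rw [Ne, Complex.cpow_eq_zero_iff]
    have := Real.sqrt_pos.2 hN
    exact fun h => this.ne' (by exact_mod_cast h.1)
  · have hd2 : Differentiable ℂ fun s : ℂ => 2 * ((Real.sqrt N : ℝ) : ℂ) ^ (-(1 / 2) : ℂ) * Λ (s + (1 - 1 / 2)) :=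
      (hd.comp (by fun_prop : Differentiable ℂ fun s : ℂ => s + (1 - 1 / 2))).const_mul _
    have h1 : ∃ σ : ℝ, ∀ s : ℂ, σ ≤ s.re → X s = cser 0 N [(((1 / 2 : ℝ)) : ℂ), (((3 / 2 : ℝ)) : ℂ)] (lam2 f) s := by
      obtain ⟨σ, hσ⟩ := h.eq
      refine ⟨σ, fun s hs => ?_⟩
      rw [hσ s hs]
      unfold cser
      rfl
    have h2 : ∃ σ : ℝ, ∀ s : ℂ, σ ≤ s.re → 2 * ((Real.sqrt N : ℝ) : ℂ) ^ (-(1 / 2) : ℂ) * Λ (s + (1 - 1 / 2)) =
        cser 0 N [(((1 / 2 : ℝ)) : ℂ), (((3 / 2 : ℝ)) : ℂ)] (lam2 f) s := by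
      refine ⟨2, fun s hs1 => ?_⟩
      rw [← hcs, hfac s (by linarith)]
      have e8 : s + (1 - 1 / 2) = s + 1 / 2 := by ring
      have hs2 : 2 < (s + 1 / 2).re := by
        rw [Complex.add_re]
        norm_num
        linarith
      rw [e8, hs _ hs2]
      unfold facE
      simp only [one_apply1, mul_one, Nat.cast_one]
    exact congrFun (Pk.uniq hd2 h.entire h2 h1) s

end

end Pool.Agent.Q286.XG
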