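import Pool.Agent.Q286.TR.EK

set_option autoImplicit false

/-!
# The L-function of an elliptic curve over a number field, with its degree and conductor (copy of `TR.exK`)
-/

namespace Pool.Agent.Q286.TR

open Complex MeasureTheory Filter Topology NumberField IsDedekindDomain
open Pool.Agent.H921R2.TatePole (nm two_le_nm nm_summable)
open Pool.Agent.TH839.UH (KL EL dg mu NX NX_fe NX_eq NX_diff NX_order dg_pos mu_cases)
open Pool.Agent.TH839.UH.NF (gv)
open Pool.Agent.Q286.GB (roots facts)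


section
variable {K : Type} [Field K] [NumberField K]
variable {a δ : HeightOneSpectrum (𝓞 K) → ℂ} {A : ℝ} {Λ : ℂ → ℂ}

open Pool.Agent.H921R2.TatePole in
/-- the L-function of an elliptic curve over a number field -/
theorem exK2 (h : KL a δ A Λ) (hd : ∀ v, δ v = 0 ∨ δ v = (nm v : ℂ)) :
    ∃ L : LFunction, L.m = 2 * Module.finrank ℚ K ∧ L.Q = A ∧ (∀ (b : ℝ) (g : ℝ → ℂ), W L b g = WK a δ A b g) ∧ SelfDual L ∧
      ∃ k : ℂ, k ≠ 0 ∧ ∀ s, L.Λ s = k * Λ (s + (1 - 1 / 2)) := by
  classical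
  obtain ⟨β, lam, c, l1, cb, conv, ser, hΛc, hsum⟩ := coeffs h hd
  obtain ⟨ε, hε, hfe⟩ := NX_fe h
  have hA0 : 0 < A := by linarith [h.one_le]
  have hk : ((2 ^ dg K * A ^ (-(1 / 4 : ℝ)) : ℝ) : ℂ) ≠ 0 := by
    have : 0 < 2 ^ dg K * A ^ (-(1 / 4 : ℝ)) := by positivity
    exact_mod_cast this.ne'
  let L : LFunction :=
    { m := dg K + dg K
      Q := A
      α := fun j => -mu (dg K) j
      r := 0
      b := lam
      c := c
      w := ε
      Λ := NX K A Λ
      one_le_m := le_add_right dg_pos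
      one_le_Q := h.one_le
      α_re := fun j => by
        rcases mu_cases j with h1 | h1 <;> rw [h1]
        · norm_num
        · norm_num
      r_le := Nat.zero_le _
      b_one := l1
      c_bound := fun n _ => cb n
      euler := conv
      w_norm := hε
      entire := NX_diff h
      order := NX_order h
      fe := fun s => by
        rw [hfe (1 - s), map_sub, map_one, sub_sub_cancel]
      dirichlet := ⟨2, fun s hs => by
        rw [NX_eq h (by linarith), ser s hs, pow_zero, one_mul]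
        unfold H353.E.gaf
        simp only [sub_eq_add_neg]⟩ }
  refine ⟨L, (two_mul (dg K)).symm, rfl, fun b g => ?_, ?_, _, hk, fun s => ?_⟩
  · unfold W WK
    have e3 : L.r = 0 := rfl
    have e4 : L.Q = A := rfl
    rw [e3, e4, Nat.cast_zero, mul_zero, zero_mul, zero_add]
    congr 1
    · congr 1
      refine integral_congr_ae (Eventually.of_forall fun t => ?_)
      simp only [mc_line]
      congr 1
      have e5 : ∑ j, ((digamma ((1 / 2 + t * I + L.α j) / 2)).re - Real.log Real.pi) =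
          dg K * (((digamma ((1 + t * I) / 2)).re - Real.log Real.pi) + ((digamma ((2 + t * I) / 2)).re - Real.log Real.pi)) := by
        show ∑ j : Fin (dg K + dg K), ((digamma ((1 / 2 + t * I + -mu (dg K) j) / 2)).re - Real.log Real.pi) = _
        unfold mu
        rw [Fin.sum_univ_add]
        simp only [Fin.append_left, Fin.append_right, Finset.sum_const, Finset.card_univ, Fintype.card_fin, nsmul_eq_mul]
        have e6 : 1 / 2 + (t : ℂ) * I + -(-1 / 2) = 1 + t * I := by ring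
        have e7 : 1 / 2 + (t : ℂ) * I + -(-3 / 2) = 2 + t * I := by ring
        rw [e6, e7]
        ring
      rw [e5]
      have e6 := digamma_dup (t := t)
      have e7 : Real.log (2 * Real.pi) = Real.log 2 + Real.log Real.pi := Real.log_mul (by norm_num) Real.pi_pos.ne'
      rw [e7]
      congr 2
      linarith
    · refine congrArg (fun z : ℂ => 2 * z.re) ?_
      have h1 := Pool.Agent.Q210.TR.t_REG (HeightOneSpectrum (𝓞 K)) 2 (fun v => nm v) β (fun v => two_le_nm v)
        (fun M => fin_nm M) ⌊Real.exp (2 * b)⌋₊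
        (fun n => ((Real.sqrt n : ℝ) : ℂ)⁻¹ * ∫ x : ℝ, g (x + Real.log n) * (starRingEnd ℂ) (g x))
      have h2 : ∑ n ∈ Finset.Icc 1 ⌊Real.exp (2 * b)⌋₊, ((ArithmeticFunction.vonMangoldt n : ℝ) : ℂ) / ((Real.sqrt n : ℝ) : ℂ) * L.c n *
          ∫ x : ℝ, g (x + Real.log n) * (starRingEnd ℂ) (g x) =
          ∑ n ∈ Finset.Icc 1 ⌊Real.exp (2 * b)⌋₊, Th (fun v : HeightOneSpectrum (𝓞 K) => nm v) β n *
            (((Real.sqrt n : ℝ) : ℂ)⁻¹ * ∫ x : ℝ, g (x + Real.log n) * (starRingEnd ℂ) (g x)) := by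
        refine Finset.sum_congr rfl fun n _ => ?_
        have h3 := hΛc n
        show ((ArithmeticFunction.vonMangoldt n : ℝ) : ℂ) / ((Real.sqrt n : ℝ) : ℂ) * c n * _ = Th nm β n * _
        rw [← h3]
        ring
      rw [h2, h1]
      have hset : {x : HeightOneSpectrum (𝓞 K) × ℕ | 1 ≤ x.2 ∧ nm x.1 ^ x.2 ≤ ⌊Real.exp (2 * b)⌋₊} =
          {x : HeightOneSpectrum (𝓞 K) × ℕ | 1 ≤ x.2 ∧ (nm x.1 : ℝ) ^ x.2 ≤ Real.exp (2 * b)} := by
        ext x
        refine and_congr_right fun _ => ?_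
        rw [Nat.le_floor_iff (Real.exp_pos _).le, Nat.cast_pow]
      rw [hset]
      refine finsum_mem_congr rfl fun x hx => ?_
      have h5 : (0 : ℝ) < nm x.1 := by
        have := two_le_nm x.1
        exact_mod_cast (by omega : 0 < nm x.1)
      have h6 : Real.sqrt ((nm x.1 ^ x.2 : ℕ) : ℝ) = Real.sqrt (nm x.1 : ℝ) ^ x.2 := by
        rw [Nat.cast_pow, Real.sqrt_eq_rpow, Real.sqrt_eq_rpow, ← Real.rpow_natCast, ← Real.rpow_natCast,
          ← Real.rpow_mul h5.le, ← Real.rpow_mul h5.le, mul_comm]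
      have h7 : Real.log ((nm x.1 ^ x.2 : ℕ) : ℝ) = x.2 * Real.log (nm x.1) := by
        rw [Nat.cast_pow, Real.log_pow]
      rw [hsum x.1 x.2, h6, h7]
      have h8 : ((Real.sqrt (nm x.1 : ℝ) : ℝ) : ℂ) * ((Real.sqrt (nm x.1 : ℝ) : ℝ) : ℂ) = (nm x.1 : ℂ) := by
        rw [← Complex.ofReal_mul, Real.mul_self_sqrt h5.le]
        simp
      have h9 : (nm x.1 : ℂ) ^ x.2 = ((Real.sqrt (nm x.1 : ℝ) : ℝ) : ℂ) ^ x.2 * ((Real.sqrt (nm x.1 : ℝ) : ℝ) : ℂ) ^ x.2 := by
        rw [← mul_pow, h8]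
      rw [h9, Complex.ofReal_pow]
      rw [div_eq_mul_inv, mul_inv]
      ring
  · obtain ⟨w, hw, hf⟩ := h.fe
    refine ⟨w, ?_, fun s => ?_⟩
    · rcases hw with rfl | rfl <;> norm_num
    · show NX K A Λ (1 - s) = w * NX K A Λ s
      unfold NX
      have e : 1 - s + 1 / 2 = 2 - (s + 1 / 2) := by ring
      rw [hf (s + 1 / 2), e, ← mul_assoc, ← mul_assoc, mul_comm (w : ℂ), mul_assoc _ (w : ℂ) (w : ℂ)]
      have hw2 : (w : ℂ) * w = 1 := by
        rcases hw with rfl | rfl <;> norm_num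
      rw [hw2, mul_one]
  · show NX K A Λ s = _
    unfold NX
    have e : s + 1 / 2 = s + (1 - 1 / 2) := by ring
    rw [e]

end

end Pool.Agent.Q286.TR
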