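import Pool.Agent.Q286.XG.OutM

set_option autoImplicit false

/-!
# Project EXG: Weil's form on the form domain; the two cases (self-dual, general)
-/

open Filter Topology MeasureTheory Complex
open Pool.Agent.Q240 Pool.Agent.Q240.CD
open Pool.Agent.Q240.CG (m0 mg zg)
open Pool.Agent.Q286.TR

namespace Pool.Agent.Q286.XG

lemma hd_cj {a : ℝ} {f : ℝ → ℂ} (hf : Y23.G.Hd a f) : Y23.G.Hd a fun x => (starRingEnd ℂ) (f x) := by
  refine ⟨Y23.Fa_cj hf.1, ?_⟩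
  have h := hf.2.comp_neg
  refine h.congr (Eventually.of_forall fun v => ?_)
  simp only
  rw [Y23.TT_cj, RCLike.norm_conj, CG.Lg_even]
  congr 4
  simp

lemma W2_Hd (L : LFunction) {a : ℝ} (ha : 0 < a) {f : ℝ → ℂ} (hf : Y23.G.Hd a f) : W2 L a f = Y23.G.QQ (D := D2 L) f := by
  unfold W2
  rw [W_eq L ha hf, W_eq L ha (hd_cj hf), CG.QQ_sym (D := D1 L) (Y23.G.Hd.dom (DZ := D2 L) ha hf)]

lemma W_Hd {L : LFunction} (h : SelfDual L) {a : ℝ} (ha : 0 < a) {f : ℝ → ℂ} (hf : Y23.G.Hd a f) :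
    W L a f = 1 / 2 * Y23.G.QQ (D := D2 L) f := by
  have hSD : @CG.SD (D1 L) := CG.sd_of (L := toL L) h
  have h1 : W2 L a f = 2 * W L a f := by
    unfold W2
    rw [W_eq L ha hf, W_eq L ha (hd_cj hf), CG.QQ_cj (D := D1 L) f]
    ring
  rw [← W2_Hd L ha hf, h1]
  ring

/-- the rates -/
structure RX : Prop where
  rgs : ∀ L : TR.LFunction, TR.SelfDual L →
    RG (D := TR.D2 L) (fun a => Real.exp (2 * a / L.m)) (Real.pi * L.m * L.Q ^ (-(1 / (L.m : ℝ))))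
  rgd : ∀ L : TR.LFunction,
    RG (D := TR.D2 L) (fun a => Real.exp (a / L.m)) (2 * Real.pi * L.m * L.Q ^ (-(1 / (L.m : ℝ))))

section

variable {L : LFunction} {Λ : ℂ → ℂ} {c : ℂ} {r : ℝ} {k : ℂ} {V : ℝ → (ℝ → ℂ) → ℝ} {q : ℝ} {P : ℂ → Prop}

lemma m_pos (L : LFunction) : (0 : ℝ) < L.m := by exact_mod_cast L.one_le_m

/-- self-dual L-functions: `ω` is the order of the central zero -/
theorem outSelf (J : JX) (K : RX) (hsd : SelfDual L) (hΛd : Differentiable ℂ Λ) (hc : c = r) (hk : k ≠ 0)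
    (hΛ : ∀ s, L.Λ s = k * Λ (s + (c - 1 / 2))) (hV : ∀ a, 0 < a → ∀ f : ℝ → ℂ, Y23.G.Hd a f → V a f = W L a f)
    (hP : ∀ ρ, P ρ ↔ Λ ρ = 0 ∧ 0 < ρ.im) :
    OutX V Λ P c r (analyticOrderNatAt Λ c) (fun a => Real.exp (2 * a / L.m)) (Real.pi * L.m * L.Q ^ (-(1 / (L.m : ℝ)))) := by
  have e : (1 / 2 : ℝ) * (2 * analyticOrderNatAt Λ c) = analyticOrderNatAt Λ c := by ring
  rw [← e]
  refine outX J hΛd hc hk hΛ (by norm_num) (fun a ha f hf => by rw [hV a ha f hf, W_Hd hsd ha hf])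
    (fun ρ => by rw [hP, TR.conj_zero hsd hk hc hΛ ρ, or_self]) ?_ (K.rgs L hsd)
  refine Real.tendsto_exp_atTop.comp (Tendsto.atTop_div_const (m_pos L) (tendsto_id.const_mul_atTop two_pos))

/-- the general case: the form `W2`, and `ω` is twice the order of the central zero -/
theorem outDual (J : JX) (K : RX) (hΛd : Differentiable ℂ Λ) (hc : c = r) (hk : k ≠ 0)
    (hΛ : ∀ s, L.Λ s = k * Λ (s + (c - 1 / 2))) (hV : ∀ a, 0 < a → ∀ f : ℝ → ℂ, Y23.G.Hd a f → V a f = W2 L a f)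
    (hP : ∀ ρ, P ρ ↔ (Λ ρ = 0 ∨ Λ ((starRingEnd ℂ) ρ) = 0) ∧ 0 < ρ.im) :
    OutX V Λ P c r (2 * analyticOrderNatAt Λ c) (fun a => Real.exp (a / L.m)) (2 * Real.pi * L.m * L.Q ^ (-(1 / (L.m : ℝ)))) := by
  have e : (1 : ℝ) * (2 * analyticOrderNatAt Λ c) = 2 * analyticOrderNatAt Λ c := by ring
  rw [← e]
  refine outX J hΛd hc hk hΛ one_pos (fun a ha f hf => by rw [hV a ha f hf, W2_Hd L ha hf, one_mul])
    hP ?_ (K.rgd L)
  exact Real.tendsto_exp_atTop.comp (Tendsto.atTop_div_const (m_pos L) tendsto_id)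

/-- the form `W2` of a self-dual L-function: better rates -/
theorem outDualS (J : JX) (K : RX) (hsd : SelfDual L) (hΛd : Differentiable ℂ Λ) (hc : c = r) (hk : k ≠ 0)
    (hΛ : ∀ s, L.Λ s = k * Λ (s + (c - 1 / 2))) (hV : ∀ a, 0 < a → ∀ f : ℝ → ℂ, Y23.G.Hd a f → V a f = W2 L a f)
    (hP : ∀ ρ, P ρ ↔ (Λ ρ = 0 ∨ Λ ((starRingEnd ℂ) ρ) = 0) ∧ 0 < ρ.im) :
    OutX V Λ P c r (2 * analyticOrderNatAt Λ c) (fun a => Real.exp (2 * a / L.m)) (Real.pi * L.m * L.Q ^ (-(1 / (L.m : ℝ)))) := by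
  have e : (1 : ℝ) * (2 * analyticOrderNatAt Λ c) = 2 * analyticOrderNatAt Λ c := by ring
  rw [← e]
  refine outX J hΛd hc hk hΛ one_pos (fun a ha f hf => by rw [hV a ha f hf, W2_Hd L ha hf, one_mul])
    hP ?_ (K.rgs L hsd)
  exact Real.tendsto_exp_atTop.comp (Tendsto.atTop_div_const (m_pos L) (tendsto_id.const_mul_atTop two_pos))

lemma W2_selfDual (h : SelfDual L) {a : ℝ} (ha : 0 < a) {f : ℝ → ℂ} (hf : Y23.G.Hd a f) : W2 L a f = 2 * W L a f := by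
  rw [W2_Hd L ha hf, W_Hd h ha hf]
  ring

end

end Pool.Agent.Q286.XG
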