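import Pool.Agent.Q286.TR.Cls

set_option autoImplicit false

/-!
# The class of L-functions, with the degree (copy of `TR.InT`)
-/

namespace Pool.Agent.Q286.TR

open Complex MeasureTheory Filter Topology
open Pool.Agent.TH839.NA (RawT RawTL)
open Pool.Agent.W355.UN (Conv prod_get)

/-- `G` (for large real part) is an L-function of degree `m`, with `r` poles, conductor `Q` and Gamma factor `γ` -/
def InD (m r : ℕ) (Q : ℝ) (γ G : ℂ → ℂ) : Prop :=
  ∃ (l : List ℂ) (b c : ℕ → ℂ) (X : ℂ → ℂ), l.length = m ∧ RawTL (1 / 2) l r Q b c X ∧ (∀ α ∈ l, -1 / 2 < α.re) ∧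
    (∀ s, γ s = (l.map fun α => Gammaℝ (s + α)).prod) ∧ ∃ σ : ℝ, ∀ s : ℂ, σ ≤ s.re → G s = LSeries b s

theorem InD.mul {m1 m2 r1 r2 : ℕ} {Q1 Q2 : ℝ} {γ1 γ2 G1 G2 : ℂ → ℂ} (h1 : InD m1 r1 Q1 γ1 G1) (h2 : InD m2 r2 Q2 γ2 G2) :
    InD (m1 + m2) (r1 + r2) (Q1 * Q2) (fun s => γ1 s * γ2 s) (fun s => G1 s * G2 s) := by
  obtain ⟨l1, b1, c1, X1, n1, w1, a1, g1, σ1, e1⟩ := h1
  obtain ⟨l2, b2, c2, X2, n2, w2, a2, g2, σ2, e2⟩ := h2
  refine ⟨l1 ++ l2, _, _, _, by rw [List.length_append, n1, n2], Pool.Agent.Q177.CG.rawMul _ _ _ _ _ _ _ _ _ _ _ _ _ w1 w2,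
    fun α hα => ?_, fun s => ?_, max (max σ1 σ2) 2, fun s hs => ?_⟩
  · rcases List.mem_append.1 hα with h | h
    · exact a1 α h
    · exact a2 α h
  · rw [List.map_append, List.prod_append, ← g1, ← g2]
  · have h3 : 2 ≤ s.re := (le_max_right _ _).trans hs
    have h4 := (le_max_left _ _).trans hs
    have s1 := (RawT.coef w1 (s := s) (by linarith)).1
    have s2 := (RawT.coef w2 (s := s) (by linarith)).1
    rw [LSeries_convolution' s1 s2]
    show G1 s * G2 s = _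
    rw [e1 s ((le_max_left _ _).trans h4), e2 s ((le_max_right _ _).trans h4)]

/-- the class is closed under finite products -/
theorem InD.list {ι : Type*} (m r : ι → ℕ) (Q : ι → ℝ) (γ G : ι → ℂ → ℂ) (l : List ι) (hl : l ≠ [])
    (h : ∀ i ∈ l, InD (m i) (r i) (Q i) (γ i) (G i)) :
    InD (l.map m).sum (l.map r).sum (l.map Q).prod (fun s => (l.map fun i => γ i s).prod) (fun s => (l.map fun i => G i s).prod) := by
  induction l with
  | nil => exact absurd rfl hl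
  | cons a l ih =>
    rcases eq_or_ne l [] with rfl | hne
    · simpa using h a (by simp)
    · have h1 := (h a (by simp)).mul (ih hne fun c hc => h c (by simp [hc]))
      simpa using h1

/-- **The L-function of an object of the class.** -/
theorem InD.lf {m r : ℕ} {Q : ℝ} {γ G : ℂ → ℂ} (h : InD m r Q γ G) :
    (∃ t, IsTr G t) ∧ ∃ L : LFunction, L.m = m ∧ L.Q = Q ∧ IsComp r Q γ G L.Λ ∧ (∀ Λ, IsComp r Q γ G Λ → Λ = L.Λ) ∧
      ∀ t, IsTr G t → ∀ (a : ℝ) (f : ℝ → ℂ), WG r Q γ t a f = W L a f := by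
  obtain ⟨l, b, c, X, hlm, w, ha, hγ, σ, hσ⟩ := h
  have htr : IsTr G c := by
    refine ⟨max σ 3 + 1, fun s hs => ?_⟩
    have h3 : 3 < s.re := by linarith [le_max_right σ 3]
    have h4 : σ < s.re := by linarith [le_max_left σ 3]
    have h5 := (RawT.coef w (s := s) (by linarith)).2.2
    have hopen : IsOpen {z : ℂ | σ < z.re} := isOpen_lt continuous_const Complex.continuous_re
    have hev : G =ᶠ[𝓝 s] LSeries b := by
      filter_upwards [hopen.mem_nhds h4] with z hz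
      exact hσ z (le_of_lt hz)
    have h6 : logDeriv G s = logDeriv (LSeries b) s := by
      unfold logDeriv
      simp only [Pi.div_apply]
      rw [hev.deriv_eq, hev.eq_of_nhds]
    have h12 : LSeries (fun n => ((ArithmeticFunction.vonMangoldt n : ℝ) : ℂ) * (c n * Pool.Agent.TH839.NA.pw (-(1 / 2)) n))
        (s - ((1 / 2 : ℝ) : ℂ)) = LSeries (fun n => ((ArithmeticFunction.vonMangoldt n : ℝ) : ℂ) * c n) s := by
      unfold LSeries
      refine tsum_congr fun n => ?_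
      rw [← Pool.Agent.TH839.NA.term_shift _ (1 / 2) s n]
      simp only [mul_assoc]
    rw [h6, h5, neg_neg, h12]
    refine hasSum_of ?_
    refine LSeriesSummable_of_le_const_mul_rpow (x := 5 / 2) (by linarith) ⟨l.length, fun n hn => ?_⟩
    have h7 := w.cb n
    have hn0 : (0 : ℝ) < n := by exact_mod_cast Nat.pos_of_ne_zero hn
    have h8 : ArithmeticFunction.vonMangoldt n ≤ Real.log n := ArithmeticFunction.vonMangoldt_le_log
    have h9 : Real.log n ≤ n := (Real.log_le_sub_one_of_pos hn0).trans (by linarith)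
    rw [norm_mul, Complex.norm_real, Real.norm_of_nonneg ArithmeticFunction.vonMangoldt_nonneg]
    have h10 : (n : ℝ) ^ ((5 / 2 : ℝ) - 1) = n * (n : ℝ) ^ (1 / 2 : ℝ) := by
      rw [show (5 / 2 : ℝ) - 1 = 1 + 1 / 2 by norm_num, Real.rpow_add hn0, Real.rpow_one]
    rw [h10]
    have h11 : 0 ≤ (l.length : ℝ) * (n : ℝ) ^ (1 / 2 : ℝ) := by positivity
    calc ArithmeticFunction.vonMangoldt n * ‖c n‖ ≤ n * ((l.length : ℝ) * (n : ℝ) ^ (1 / 2 : ℝ)) := by
          apply mul_le_mul (h8.trans h9) h7 (norm_nonneg _) hn0.le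
      _ = _ := by ring
  have hcomp : IsComp r Q γ G X := by
    obtain ⟨σ2, h2⟩ := w.eq
    refine ⟨w.entire, max σ σ2, fun s hs => ?_⟩
    rw [h2 s ((le_max_right _ _).trans hs), hσ s ((le_max_left _ _).trans hs), hγ,
      prod_get l fun α => Gammaℝ (s + α)]
  refine ⟨⟨c, htr⟩, ofRawT w ha, hlm, rfl, hcomp, fun Λ hΛ => ?_, fun t ht a f => ?_⟩
  · obtain ⟨σ1, h1⟩ := hΛ.2
    obtain ⟨σ2, h2⟩ := hcomp.2
    exact Pool.Agent.W355.UN.Pk.uniq hcomp.1 hΛ.1 ⟨σ2, h2⟩ ⟨σ1, h1⟩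
  · unfold WG W
    have e1 : ∀ x : ℝ, Real.log Q + 2 * (logDeriv γ (1 / 2 + x * I)).re = Real.log (ofRawT w ha).Q +
        ∑ j, ((digamma ((1 / 2 + x * I + (ofRawT w ha).α j) / 2)).re - Real.log Real.pi) := fun x => by
      rw [arch_eq l ha hγ]
      rfl
    simp only [e1]
    congr 1
    refine congrArg (fun z : ℂ => 2 * z.re) (Finset.sum_congr rfl fun n _ => ?_)
    congr 1
    rw [div_mul_eq_mul_div, div_mul_eq_mul_div, tr_uniq ht htr n]
    rfl

end Pool.Agent.Q286.TR
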