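import Pool.Agent.Q286.XG.Rows
import Pool.Agent.Q240.EX.All
import Pool.Agent.Q38.XG.XtE
import Pool.Agent.Q38.XG.Neg
import Pool.Agent.Q38.XG.RGs
import Pool.Agent.Q176.XG.UZt
import Pool.Agent.Q176.XG.RateF
import Pool.Agent.Q68.XG.Rgd
import Pool.Agent.Q164.XG.XtP
import Pool.Agent.Q164.XG.UZcG
import Pool.Agent.Q214.XG.RateL
import Pool.Agent.Q235.XG.Nu
import Pool.Agent.Q235.XG.Val

set_option autoImplicit false

/-!
# Project EXG: all lemmas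
-/

namespace Pool.Agent.Q286.XG

open Pool.Agent.Q240

theorem a_xtE : S_XtEG := Pool.Agent.Q38.XG.xtEG
theorem a_xtP : S_XtPG := Pool.Agent.Q164.XG.xtP
theorem a_uzc : S_UZcG := Pool.Agent.Q164.XG.uZcG
theorem a_uzt : S_UZtG := Pool.Agent.Q176.XG.uZtG
theorem a_nu : S_NuG := Pool.Agent.Q235.XG.nu
theorem a_neg : S_NegG := Pool.Agent.Q38.XG.negG
theorem a_val : S_ValG := Pool.Agent.Q235.XG.val
theorem a_rateL : S_RateLG := Pool.Agent.Q214.XG.rateLG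
theorem a_rateF : S_RateFG := Pool.Agent.Q176.XG.rateFG
theorem a_rgs : S_RGs := Pool.Agent.Q38.XG.rgs
theorem a_rgd : S_RGd := Pool.Agent.Q68.XG.rgd

theorem jx : JX where
  xte := a_xtE
  xtp := a_xtP
  uzt := a_uzt a_uzc EX.a_mainU EX.a_fam2Zc EX.a_dn
  nu := a_nu EX.a_dn a_xtE a_xtP
  neg := a_neg
  val := a_val
  ratef := a_rateF a_xtP
  limS2 := EX.a_limS2
  zd := EX.a_zD

theorem rx : RX := ⟨a_rgs a_rateL, a_rgd a_rateL⟩

end Pool.Agent.Q286.XG
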