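import Pool.Agent.Q286.XG.Stm

set_option autoImplicit false
set_option linter.unusedVariables false

/-!
# Project EXG: explicit degrees (`ν ≥ K a E(a)`)
-/

open Polynomial Filter Topology Finset MeasureTheory
open Pool.Agent.Q240 Pool.Agent.Q240.CD
open Pool.Agent.Q240.CG (m0 mg zg)
open Pool.Agent.Q240.EX (Lc Big)

namespace Pool.Agent.Q286.XG

/-- the degree is at least `K a E(a)` -/
def BigE (E : ℝ → ℝ) (K a : ℝ) (ν : ℕ∞) : Prop := ((⌈K * a * E a⌉₊ : ℕ) : ℕ∞) ≤ ν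

/-- trial functions of the degrees `ν ≥ K a E(a)`, concentrated at every single point of the line, with the accuracy `exp (- c E(a))`, `c < 2 q`
(compare `RG`) -/
def RN [D : Y23.G.ZD] (E : ℝ → ℝ) (q : ℝ) : Prop := ∀ γ c : ℝ, c < 2 * q → ∃ C K : ℝ, ∀ᶠ a : ℝ in atTop, ∀ ν : ℕ∞, BigE E K a ν →
  ∃ G : ℝ → ℂ, Y23.G.F.Hn a ν G ∧ Y23.TT G (Complex.I * γ) = 1 ∧ ‖Y23.TT G 0‖ ≤ C ∧
    Y23.G.SS G ≤ (mc (1 / 2 + Complex.I * γ) : ℝ) + Real.exp (-(c * E a))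

/-- **RateLN**: trial functions of finite degree for an L-function (compare `S_RateLG`, proved in `Pool/Agent/Q214/XG/RateL.lean`).
Proof. `X = L.X` decays exponentially on the line: `‖L.X (1/2 + i t)‖ ≤ C exp (- δ |t|)` (Gamma factors; or the theta function in a sector). `G` from `RateL` (`f` from `Y23.G.cut`,
convolved with `kap`, twice if necessary) satisfies `‖TT G (i t)‖ ≤ (C exp (- δ |t|) + C τ) / (1 + |t|)^3`, `τ = exp (B (1+a) - cc E)`; the nodes `π k / a`, `|k| > ν ≥ K a E`, have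
`|t| ≥ π K E`, so `Y23.G.F.proj` with `C τ` gives `g ∈ Hn a ν` with `‖TT G w - TT g w‖ ≤ C a² τ exp (a) / (1 + |w.im|)`; divide by `TT g w1`. -/
def S_RateLN : Prop := ∀ [L : Y23.G.LFun], RN (D := Y23.G.zd) (fun a => Real.exp (2 * a / L.m)) (Y23.G.cc (L := L))

/-- **RateFN**: the extremal functions of the degrees `ν ≥ K a E(a)` (port of `S_RateFG`, proved in `Pool/Agent/Q176/XG/RateF.lean`; the trial functions are now in `Hn a ν`). -/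
def S_RateFN : Prop := S_XtPG → ∀ [D : Y23.G.ZD] [Y23.G.ZC] [CG.SD], RHG → ∀ (E : ℝ → ℝ) (q : ℝ), Tendsto E atTop atTop → RN E q → ∀ c : ℝ, c < 2 * q →
  (∃ K A : ℝ, ∀ (a : ℝ) (ν : ℕ∞), A ≤ a → BigE E K a ν → ∀ f : ℝ → ℂ, XtG a ν f → Y23.G.QQ f ≤ (m0 : ℝ) + Real.exp (-(c * E a))) ∧
  ∀ γ : ℝ, γ ≠ 0 → (1 / 2 + Complex.I * γ) ∈ D.Zs → ∃ K A : ℝ, ∀ (a : ℝ) (ν : ℕ∞), A ≤ a → BigE E K a ν → ∀ f : ℝ → ℂ, XtG a ν f →
    ‖Y23.TT f (Complex.I * γ)‖ ≤ Real.exp (-(c * E a))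

/-- **RGsN**: as `S_RGs` (proved in `Pool/Agent/Q38/XG/RGs.lean`). -/
def S_RGsN : Prop := S_RateLN → ∀ L : TR.LFunction, TR.SelfDual L →
  RN (D := TR.D2 L) (fun a => Real.exp (2 * a / L.m)) (Real.pi * L.m * L.Q ^ (-(1 / (L.m : ℝ))))

/-- **RGdN**: as `S_RGd` (proved in `Pool/Agent/Q68/XG/Rgd.lean`). -/
def S_RGdN : Prop := S_RateLN → ∀ L : TR.LFunction,
  RN (D := TR.D2 L) (fun a => Real.exp (a / L.m)) (2 * Real.pi * L.m * L.Q ^ (-(1 / (L.m : ℝ))))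

end Pool.Agent.Q286.XG
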