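import Pool.Agent.Q286.XG.Core
import Pool.Agent.Q286.XG.StmN

set_option autoImplicit false

/-!
# Project EXG: the rates with explicit degrees, for zero data
-/

open Filter Topology Finset MeasureTheory Complex
open Pool.Agent.Q240 Pool.Agent.Q240.CD
open Pool.Agent.Q240.CG (m0 mg zg)
open Pool.Agent.Q240.EX (Lc Big)

namespace Pool.Agent.Q286.XG

/-- the conclusion of `S_RateFN` -/
def C_RateFN : Prop := ∀ [D : Y23.G.ZD] [Y23.G.ZC] [CG.SD], RHG → ∀ (E : ℝ → ℝ) (q : ℝ), Tendsto E atTop atTop → RN E q → ∀ c : ℝ, c < 2 * q →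
  (∃ K A : ℝ, ∀ (a : ℝ) (ν : ℕ∞), A ≤ a → BigE E K a ν → ∀ f : ℝ → ℂ, XtG a ν f → Y23.G.QQ f ≤ (m0 : ℝ) + Real.exp (-(c * E a))) ∧
  ∀ γ : ℝ, γ ≠ 0 → (1 / 2 + Complex.I * γ) ∈ D.Zs → ∃ K A : ℝ, ∀ (a : ℝ) (ν : ℕ∞), A ≤ a → BigE E K a ν → ∀ f : ℝ → ℂ, XtG a ν f →
    ‖Y23.TT f (Complex.I * γ)‖ ≤ Real.exp (-(c * E a))

/-- everything about explicit degrees that is proved in the lemma jobs -/
structure JN : Prop where
  ratef : C_RateFN
  rgs : ∀ L : TR.LFunction, TR.SelfDual L →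
    RN (D := TR.D2 L) (fun a => Real.exp (2 * a / L.m)) (Real.pi * L.m * L.Q ^ (-(1 / (L.m : ℝ))))
  rgd : ∀ L : TR.LFunction,
    RN (D := TR.D2 L) (fun a => Real.exp (a / L.m)) (2 * Real.pi * L.m * L.Q ^ (-(1 / (L.m : ℝ))))

lemma bigE_mono {E : ℝ → ℝ} {K K' a : ℝ} {ν : ℕ∞} (h : K ≤ K') (ha : 0 ≤ a * E a) (h2 : BigE E K' a ν) : BigE E K a ν := by
  refine le_trans ?_ h2
  rw [Nat.cast_le]
  apply Nat.ceil_mono
  rw [mul_assoc, mul_assoc]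
  exact mul_le_mul_of_nonneg_right h ha

lemma bigE_big {E : ℝ → ℝ} {K K' a : ℝ} {ν : ℕ∞} (h : K' * a ^ 2 ≤ K * a * E a) (h2 : BigE E K a ν) : Big K' a ν := by
  refine le_trans ?_ h2
  rw [Nat.cast_le]
  exact Nat.ceil_mono h

section

variable [D : Y23.G.ZD] [EC : Y23.G.ZC] [SD : CG.SD]

theorem rateZN (J : JX) (H : C_RateFN) (hRH : RHG) {E : ℝ → ℝ} {q : ℝ} (hE : Tendsto E atTop atTop) (hE2 : ∀ K : ℝ, ∀ᶠ a in atTop, K * a ≤ E a)
    (hN : RN E q) {c : ℝ} (hc : c < 2 * q) {s : ℂ} (hs : s ∈ D.Zs) (hs2 : s ≠ 1 / 2) :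
    ∃ K A : ℝ, ∀ (a : ℝ) (ν : ℕ∞) (f : ℝ → ℂ), A ≤ a → BigE E K a ν → XtG a ν f →
      ∃ t : ℝ, Y23.TT f (I * t) = 0 ∧ |t - s.im| ≤ Real.exp (-(c * E a)) := by
  have R := resX (D := D) J hRH
  have him : s.im ≠ 0 := by
    intro h0
    apply hs2
    have h2 := hRH ⟨s, hs⟩
    simp only at h2
    apply Complex.ext
    · simp [h2]
    · simp [h0]
  obtain ⟨C, r, K1, A1, hC, hr, hK1, h1⟩ := R.zz s hs hs2
  obtain ⟨K3, A3, h3⟩ := (H (D := D) hRH E q hE hN ((c + 2 * q) / 2) (by linarith)).2 s.im him (mem_line hRH hs)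
  have e1 : ∀ᶠ a : ℝ in atTop, C * Real.exp (-((c + 2 * q) / 2 * E a)) ≤ Real.exp (-(c * E a)) :=
    hE.eventually (exp_half' hC (by linarith))
  obtain ⟨K2, A2, hK2, h8⟩ := J.val (D := D) hRH 1
  have e4 : ∀ᶠ a : ℝ in atTop, Real.exp (-(1 * a ^ 2 * Real.log a)) ≤ r ^ 2 := by
    have h5 : Tendsto (fun a : ℝ => Real.exp (-(1 * (a ^ 2 * Real.log a)))) atTop (𝓝 0) :=
      Real.tendsto_exp_atBot.comp (tendsto_neg_atTop_atBot.comp (tend_L.const_mul_atTop one_pos))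
    filter_upwards [h5.eventually (ge_mem_nhds (by positivity : (0 : ℝ) < r ^ 2))] with a ha
    rw [mul_assoc]
    exact ha
  obtain ⟨A, hA⟩ := eventually_atTop.1 (e1.and (e4.and ((hE2 (max K1 K2)).and (eventually_ge_atTop 1))))
  refine ⟨max K3 1, max (max (max A1 A2) A3) A, fun a ν f ha hν hf => ?_⟩
  obtain ⟨h5, h6, h7, h9⟩ := hA a ((le_max_right _ _).trans ha)
  have ha0 : 0 < a := lt_of_lt_of_le one_pos h9
  have hA' := (le_max_left _ _).trans ha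
  have hEp : 0 ≤ E a := le_trans (mul_nonneg (hK1.le.trans (le_max_left _ _)) ha0.le) h7
  have hν1 : BigE E K3 a ν := bigE_mono (le_max_left _ _) (mul_nonneg ha0.le hEp) hν
  have hν2 : BigE E 1 a ν := bigE_mono (le_max_right _ _) (mul_nonneg ha0.le hEp) hν
  have hν3 : Big (max K1 K2) a ν := by
    refine bigE_big ?_ hν2
    have := mul_le_mul_of_nonneg_left h7 ha0.le
    nlinarith
  have h10 := h3 a ν ((le_max_right _ _).trans hA') hν1 f hf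
  have h11 := two_terms hRH ha0 hf.1.hd hf.2.1 him (mem_line hRH hs)
  have h12 := h8 a ν ((le_max_right _ _).trans ((le_max_left _ _).trans hA')) (Big_mono (le_max_right _ _) hν3) f hf
  have h13 : ‖Y23.TT f (I * s.im)‖ ≤ r := by
    refine (pow_le_pow_iff_left₀ (norm_nonneg _) hr.le two_ne_zero).1 ?_
    linarith
  obtain ⟨x, hx1, hx2⟩ := h1 a ν f ((le_max_left _ _).trans ((le_max_left _ _).trans hA')) (Big_mono (le_max_left _ _) hν3) hf _ h13 le_rfl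
  exact ⟨x, hx2, hx1.trans ((mul_le_mul_of_nonneg_left h10 hC.le).trans h5)⟩

end

end Pool.Agent.Q286.XG
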