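import Pool.Agent.Q286.XG.Rows
import Pool.Agent.Q286.XG.CoreN

set_option autoImplicit false

/-!
# Project EXG: the rates with explicit degrees, in any normalisation
-/

open Filter Topology MeasureTheory Complex
open Pool.Agent.Q240 Pool.Agent.Q240.CD
open Pool.Agent.Q240.CG (m0 mg zg)
open Pool.Agent.Q286.TR

namespace Pool.Agent.Q286.XG

/-- the rates; `ω` is the contribution of the central zero -/
structure OutN (V : ℝ → (ℝ → ℂ) → ℝ) (Λ : ℂ → ℂ) (c : ℂ) (r ω : ℝ) (E : ℝ → ℝ) (q : ℝ) : Prop where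
  rateV : (∀ s : ℂ, Λ s = 0 → s.re = r) → ∀ b : ℝ, b < 2 * q → ∃ K A : ℝ, ∀ (a : ℝ) (ν : ℕ∞) (f : ℝ → ℂ), A ≤ a →
    (∀ n : ℕ, ν = n → K * a * E a ≤ n) → Ext V c a ν f → V a f ≤ ω + Real.exp (-(b * E a))
  rateZ : (∀ s : ℂ, Λ s = 0 → s.re = r) → ∀ ρ : ℂ, Λ ρ = 0 → ρ ≠ c → ∀ b : ℝ, b < 2 * q → ∃ K A : ℝ, ∀ (a : ℝ) (ν : ℕ∞) (f : ℝ → ℂ), A ≤ a →
    (∀ n : ℕ, ν = n → K * a * E a ≤ n) → Ext V c a ν f → ∃ t : ℝ, MC c f (c + t * I) = 0 ∧ |t - ρ.im| ≤ Real.exp (-(b * E a))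

lemma large_bigE {E : ℝ → ℝ} {K a : ℝ} {ν : ℕ∞} (h : ∀ n : ℕ, ν = n → K * a * E a ≤ n) : BigE E K a ν := by
  unfold BigE
  by_cases hν : ν = ⊤
  · rw [hν]; exact le_top
  · obtain ⟨n, rfl⟩ := ENat.ne_top_iff_exists.1 hν
    rw [Nat.cast_le]
    exact Nat.ceil_le.2 (h n rfl)

section

variable {L : LFunction} {Λ : ℂ → ℂ} {c : ℂ} {r : ℝ} {k : ℂ} {V : ℝ → (ℝ → ℂ) → ℝ} {q : ℝ}

/-- **The rates in any normalisation.** -/
theorem outN (J : JX) (H : C_RateFN) (hΛd : Differentiable ℂ Λ) (hc : c = r) (hk : k ≠ 0) (hΛ : ∀ s, L.Λ s = k * Λ (s + (c - 1 / 2))) (hq : 0 < q)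
    (hV : ∀ a, 0 < a → ∀ f : ℝ → ℂ, Y23.G.Hd a f → V a f = q * Y23.G.QQ (D := D2 L) f)
    {E : ℝ → ℝ} (hE : Tendsto E atTop atTop) (hE2 : ∀ K : ℝ, ∀ᶠ a in atTop, K * a ≤ E a) {Q : ℝ} (hRN : RN (D := D2 L) E Q) :
    OutN V Λ c r (q * (2 * analyticOrderNatAt Λ c)) E Q := by
  have hrh : (∀ s : ℂ, Λ s = 0 → s.re = r) ↔ RHG (D := D2 L) := by rw [← rh_iff (L := L) hc hk hΛ, rhg_iff]
  have hX := fun {a : ℝ} (ha : 0 < a) {ν : ℕ∞} {f : ℝ → ℂ} => ext_XtG (L := L) (c := c) (ν := ν) (f := f) hq hV ha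
  have hω : q * (2 * (analyticOrderNatAt Λ c : ℝ)) = q * (m0 (D := D2 L) : ℝ) := by
    rw [m0_eq, order_shift hk hΛd hΛ (1 / 2), add_sub_cancel]
  have hVx : ∀ {a : ℝ}, 0 < a → ∀ {ν : ℕ∞} {f : ℝ → ℂ}, Deg c a ν f → V a f = q * Y23.G.QQ (D := D2 L) f :=
    fun {a} ha {ν} {f} hf => hV a ha f (deg_hn ha hf).hd
  have hzs : ∀ ρ, Λ ρ = 0 → ρ - (c - 1 / 2) ∈ (D2 L).Zs := by
    intro ρ hρ
    left
    show L.Λ (ρ - (c - 1 / 2)) = 0
    rw [hΛ, sub_add_cancel, hρ, mul_zero]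
  have him : ∀ ρ : ℂ, (ρ - (c - 1 / 2)).im = ρ.im := by
    intro ρ
    rw [hc, Complex.sub_im, Complex.sub_im, Complex.ofReal_im]
    norm_num
  have hne : ∀ ρ : ℂ, ρ ≠ c → ρ - (c - 1 / 2) ≠ 1 / 2 := by
    intro ρ hρ h
    exact hρ (by linear_combination h)
  have hline : ∀ (f : ℝ → ℂ) (t : ℝ), MC c f (c + t * I) = Y23.TT f (I * t) := fun f t => by
    rw [mc_TT]
    congr 1
    ring
  refine ⟨fun hR b hb => ?_, fun hR ρ hρ hρ2 b hb => ?_⟩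
  · obtain ⟨K, A, h⟩ := (H (D := D2 L) (hrh.1 hR) E Q hE hRN ((b + 2 * Q) / 2) (by linarith)).1
    obtain ⟨A2, hA2⟩ := eventually_atTop.1 ((absorb hq (by linarith : b < (b + 2 * Q) / 2) hE).and (eventually_gt_atTop 0))
    refine ⟨K, max A A2, fun a ν f ha hν hf => ?_⟩
    obtain ⟨h1, ha0⟩ := hA2 a ((le_max_right _ _).trans ha)
    obtain ⟨h2, h3⟩ := (hX ha0).1 hf
    have h4 := h a ν ((le_max_left _ _).trans ha) (large_bigE hν) f h3
    rw [hω, hVx ha0 h2]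
    calc q * Y23.G.QQ (D := D2 L) f ≤ q * ((m0 (D := D2 L) : ℝ) + Real.exp (-((b + 2 * Q) / 2 * E a))) := mul_le_mul_of_nonneg_left h4 hq.le
      _ = q * (m0 (D := D2 L) : ℝ) + q * Real.exp (-((b + 2 * Q) / 2 * E a)) := by ring
      _ ≤ _ := by linarith
  · obtain ⟨K, A, h⟩ := rateZN (D := D2 L) J H (hrh.1 hR) hE hE2 hRN hb (hzs ρ hρ) (hne ρ hρ2)
    refine ⟨K, max A 1, fun a ν f ha hν hf => ?_⟩
    have ha0 : 0 < a := lt_of_lt_of_le one_pos ((le_max_right _ _).trans ha)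
    obtain ⟨h1, h2⟩ := (hX ha0).1 hf
    obtain ⟨t, h3, h4⟩ := h a ν f ((le_max_left _ _).trans ha) (large_bigE hν) h2
    refine ⟨t, by rw [hline]; exact h3, ?_⟩
    rw [him] at h4
    exact h4

lemma exp_lin {δ : ℝ} (hδ : 0 < δ) (K : ℝ) : ∀ᶠ a : ℝ in atTop, K * a ≤ Real.exp (δ * a) := by
  have h1 : Tendsto (fun a : ℝ => Real.exp (δ * a) / (δ * a)) atTop atTop :=
    (Real.tendsto_exp_div_pow_atTop 1 |>.comp (tendsto_id.const_mul_atTop hδ)).congr fun a => by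
      simp
  filter_upwards [h1.eventually_ge_atTop (K / δ), eventually_gt_atTop 0] with a ha ha0
  rw [le_div_iff₀ (by positivity)] at ha
  calc K * a = K / δ * (δ * a) := by field_simp
    _ ≤ _ := ha

/-- self-dual L-functions: `ω` is the order of the central zero -/
theorem outSelfN (J : JX) (N : JN) (hsd : SelfDual L) (hΛd : Differentiable ℂ Λ) (hc : c = r) (hk : k ≠ 0)
    (hΛ : ∀ s, L.Λ s = k * Λ (s + (c - 1 / 2))) (hV : ∀ a, 0 < a → ∀ f : ℝ → ℂ, Y23.G.Hd a f → V a f = W L a f) :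
    OutN V Λ c r (analyticOrderNatAt Λ c) (fun a => Real.exp (2 * a / L.m)) (Real.pi * L.m * L.Q ^ (-(1 / (L.m : ℝ)))) := by
  have e : (1 / 2 : ℝ) * (2 * analyticOrderNatAt Λ c) = analyticOrderNatAt Λ c := by ring
  have hm := m_pos L
  rw [← e]
  refine outN J N.ratef hΛd hc hk hΛ (by norm_num) (fun a ha f hf => by rw [hV a ha f hf, W_Hd hsd ha hf])
    ?_ (fun K => ?_) (N.rgs L hsd)
  · exact Real.tendsto_exp_atTop.comp (Tendsto.atTop_div_const hm (tendsto_id.const_mul_atTop two_pos))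
  · filter_upwards [exp_lin (δ := 2 / L.m) (by positivity) K] with a ha
    have e2 : 2 * a / (L.m : ℝ) = 2 / L.m * a := by ring
    rw [e2]
    exact ha

/-- the general case: the form `W2`, and `ω` is twice the order of the central zero -/
theorem outDualN (J : JX) (N : JN) (hΛd : Differentiable ℂ Λ) (hc : c = r) (hk : k ≠ 0)
    (hΛ : ∀ s, L.Λ s = k * Λ (s + (c - 1 / 2))) (hV : ∀ a, 0 < a → ∀ f : ℝ → ℂ, Y23.G.Hd a f → V a f = W2 L a f) :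
    OutN V Λ c r (2 * analyticOrderNatAt Λ c) (fun a => Real.exp (a / L.m)) (2 * Real.pi * L.m * L.Q ^ (-(1 / (L.m : ℝ)))) := by
  have e : (1 : ℝ) * (2 * analyticOrderNatAt Λ c) = 2 * analyticOrderNatAt Λ c := by ring
  have hm := m_pos L
  rw [← e]
  refine outN J N.ratef hΛd hc hk hΛ one_pos (fun a ha f hf => by rw [hV a ha f hf, W2_Hd L ha hf, one_mul])
    ?_ (fun K => ?_) (N.rgd L)
  · exact Real.tendsto_exp_atTop.comp (Tendsto.atTop_div_const hm tendsto_id)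
  · filter_upwards [exp_lin (δ := 1 / L.m) (by positivity) K] with a ha
    have e2 : a / (L.m : ℝ) = 1 / L.m * a := by ring
    rw [e2]
    exact ha

/-- the form `W2` of a self-dual L-function: better rates -/
theorem outDualSN (J : JX) (N : JN) (hsd : SelfDual L) (hΛd : Differentiable ℂ Λ) (hc : c = r) (hk : k ≠ 0)
    (hΛ : ∀ s, L.Λ s = k * Λ (s + (c - 1 / 2))) (hV : ∀ a, 0 < a → ∀ f : ℝ → ℂ, Y23.G.Hd a f → V a f = W2 L a f) :
    OutN V Λ c r (2 * analyticOrderNatAt Λ c) (fun a => Real.exp (2 * a / L.m)) (Real.pi * L.m * L.Q ^ (-(1 / (L.m : ℝ)))) := by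
  have e : (1 : ℝ) * (2 * analyticOrderNatAt Λ c) = 2 * analyticOrderNatAt Λ c := by ring
  have hm := m_pos L
  rw [← e]
  refine outN J N.ratef hΛd hc hk hΛ one_pos (fun a ha f hf => by rw [hV a ha f hf, W2_Hd L ha hf, one_mul])
    ?_ (fun K => ?_) (N.rgs L hsd)
  · exact Real.tendsto_exp_atTop.comp (Tendsto.atTop_div_const hm (tendsto_id.const_mul_atTop two_pos))
  · filter_upwards [exp_lin (δ := 2 / L.m) (by positivity) K] with a ha
    have e2 : 2 * a / (L.m : ℝ) = 2 / L.m * a := by ring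
    rw [e2]
    exact ha

end

end Pool.Agent.Q286.XG
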