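import Pool.Agent.Q286.XG.All
import Pool.Agent.Q286.XG.OutN
import Pool.Agent.Q285.XG.RGN
import Pool.Agent.Q68.XG.RateFN
import Pool.Agent.Q77.XG.RateLN

set_option autoImplicit false

/-!
# Project EXG: all lemmas on explicit degrees
-/

namespace Pool.Agent.Q286.XG

theorem a_rateLN : S_RateLN := Pool.Agent.Q77.XG.rateLNG
theorem a_rateFN : S_RateFN := Pool.Agent.Q68.XG.rateFN
theorem a_rgsN : S_RGsN := Pool.Agent.Q285.XG.rgsn
theorem a_rgdN : S_RGdN := Pool.Agent.Q285.XG.rgdn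

theorem jn : JN := ⟨a_rateFN a_xtP, a_rgsN a_rateLN, a_rgdN a_rateLN⟩

end Pool.Agent.Q286.XG
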