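import Pool.Agent.Q286.XG.Stm
import Pool.Agent.Q240.EX.Asm

set_option autoImplicit false

/-!
# Project EXG: assembly for zero data (convergence of the extremal functions, zeros)
-/

open Filter Topology Finset MeasureTheory Complex
open Pool.Agent.Q240 Pool.Agent.Q240.CD
open Pool.Agent.Q240.CG (m0 mg zg)
open Pool.Agent.Q240.EX (Lc Big)

namespace Pool.Agent.Q286.XG

lemma Big_mono {K K' a : ℝ} {ν : ℕ∞} (h : K ≤ K') (h2 : Big K' a ν) : Big K a ν := EX.Big.mono h h2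

lemma Big_top (K a : ℝ) : Big K a ⊤ := le_top

lemma Big_ne {K a : ℝ} {ν : ℕ∞} (h : Big K a ν) (hν : ν ≠ ⊤) : ∃ n : ℕ, ν = n ∧ ⌈K * a ^ 2⌉₊ ≤ n := by
  obtain ⟨n, rfl⟩ := ENat.ne_top_iff_exists.1 hν
  refine ⟨n, rfl, ?_⟩
  unfold EX.Big at h
  exact_mod_cast h

/-- from the filter `a → ∞`, `n / a² → ∞` to constants -/
lemma ev_Li {p : ℝ × ℕ → Prop} (h : ∀ᶠ i in EX.Li, p i) : ∃ K A : ℝ, 0 < K ∧ ∀ (a : ℝ) (n : ℕ), A ≤ a → ⌈K * a ^ 2⌉₊ ≤ n → p (a, n) := by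
  unfold EX.Li at h
  rw [Filter.eventually_inf] at h
  obtain ⟨s, hs, t, ht, h⟩ := h
  obtain ⟨s', hs', hs2⟩ := Filter.mem_comap.1 hs
  obtain ⟨t', ht', ht2⟩ := Filter.mem_comap.1 ht
  obtain ⟨A, hA⟩ := Filter.mem_atTop_sets.1 hs'
  obtain ⟨K, hK⟩ := Filter.mem_atTop_sets.1 ht'
  refine ⟨max K 1, max A 1, lt_of_lt_of_le one_pos (le_max_right _ _), fun a n ha hn => ?_⟩
  have ha0 : 0 < a := lt_of_lt_of_le one_pos ((le_max_right _ _).trans ha)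
  refine h (a, n) ⟨hs2 (hA a ((le_max_left _ _).trans ha)), ht2 (hK _ ?_)⟩
  have h1 : max K 1 * a ^ 2 ≤ (n : ℝ) := Nat.ceil_le.1 hn
  show K ≤ (n : ℝ) / a ^ 2
  rw [le_div_iff₀ (by positivity)]
  exact (mul_le_mul_of_nonneg_right (le_max_left K 1) (sq_nonneg a)).trans h1

/-- the products over the distant nodes tend to `1` -/
lemma SpN_lim (hS : EX.S_LimS2) (R ε : ℝ) (hε : 0 < ε) : ∃ K A : ℝ, 0 < K ∧ ∀ (a : ℝ) (ν : ℕ∞), A ≤ a → Big K a ν → ∀ z : ℂ, ‖z‖ ≤ R →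
    ‖SpN a ν z - 1‖ ≤ ε := by
  have h1 : TendstoUniformlyOn (fun (p : ℝ × ℕ) (z : ℂ) => Sp p.1 p.2 z) (fun _ => 1) EX.Li (Metric.closedBall 0 R) :=
    (tendstoLocallyUniformly_iff_forall_isCompact.1 hS) _ (isCompact_closedBall 0 R)
  rw [Metric.tendstoUniformlyOn_iff] at h1
  obtain ⟨K, A, hK, h⟩ := ev_Li (h1 ε hε)
  refine ⟨K, A, hK, fun a ν ha hν z hz => ?_⟩
  by_cases ht : ν = ⊤
  · unfold SpN
    rw [if_pos ht, sub_self, norm_zero]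
    exact hε.le
  · obtain ⟨n, rfl, hn⟩ := Big_ne hν ht
    have h2 := h a n ha hn z (by simpa using hz)
    unfold SpN
    rw [if_neg ht, ENat.toNat_coe, ← dist_eq_norm, dist_comm]
    exact h2.le

section

variable [D : Y23.G.ZD]

/-- extremal functions have the smallest value -/
lemma XtG.le {a : ℝ} {ν : ℕ∞} {f : ℝ → ℂ} (hf : XtG a ν f) (g : ℝ → ℂ) (hg : Y23.G.F.Hn a ν g) (h0 : Y23.TT g 0 = 1) :
    (Y23.G.QQ f - m0) + m0 ≤ Y23.G.QQ g := by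
  rw [sub_add_cancel]
  exact hf.2.2 g hg h0

/-- the bound for one extremal function -/
lemma close {G S ε : ℝ} (h : 0 < G) (h1 : G * S ^ 2 ≤ ε ^ 2 * G) (hε : 0 ≤ ε) (hS : 0 ≤ S) : S ≤ ε := EX.close h h1 hε hS

variable [EC : Y23.G.ZC] [SD : CG.SD]

theorem convS (hUZt : ∀ γ : ℕ → ℝ, CG.ENG γ →
      ∀ c : ℝ, 0 < c → ∀ R ε : ℝ, 0 < ε → ∃ A : ℝ, ∀ (a : ℝ) (ν : ℕ∞), A ≤ a → Big c a ν → ∀ δ : ℝ,
      (∀ g : ℝ → ℂ, Y23.G.F.Hn a ν g → Y23.TT g 0 = 1 → δ + m0 ≤ Y23.G.QQ g) →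
        ∀ f : ℝ → ℂ, Y23.G.F.Hn a ν f → ∀ z : ℂ, ‖z‖ ≤ R →
          δ * ‖Y23.TT f (Complex.I * z) - Y23.TT f 0 * (GC (fun j => γ j ^ 2) (z ^ 2) * SpN a ν z)‖ ^ 2 ≤
            ε * (Y23.G.QQ f - m0 * ‖Y23.TT f 0‖ ^ 2)) (hP : S_XtPG) (hRH : RHG) {γ : ℕ → ℝ} (hγ : CG.ENG γ) {c : ℝ} (hc : 0 < c) (R : ℝ) {ε : ℝ} (hε : 0 < ε) :
    ∃ A : ℝ, ∀ (a : ℝ) (ν : ℕ∞) (f : ℝ → ℂ), A ≤ a → Big c a ν → XtG a ν f → ∀ z : ℂ, ‖z‖ ≤ R →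
      ‖Y23.TT f (I * z) - GC (fun j => γ j ^ 2) (z ^ 2) * SpN a ν z‖ ≤ ε := by
  obtain ⟨A, h⟩ := hUZt γ hγ c hc R (ε ^ 2) (by positivity)
  refine ⟨max A 1, fun a ν f ha hν hf z hz => ?_⟩
  have ha0 : 0 < a := lt_of_lt_of_le one_pos ((le_max_right _ _).trans ha)
  have h4 := h a ν ((le_max_left _ _).trans ha) hν (Y23.G.QQ f - m0) hf.le f hf.1 z hz
  have h5 := (hP hRH a ν f ha0 hf).1
  rw [hf.2.1, one_mul, norm_one, one_pow, mul_one] at h4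
  exact close (by linarith) h4 hε.le (norm_nonneg _)

/-- the hypotheses of the limit function -/
lemma gc_facts {γ : ℕ → ℝ} (hγ : CG.ENG γ) : Differentiable ℂ (fun z : ℂ => GC (fun j => γ j ^ 2) (z ^ 2)) ∧
    ∀ j, (fun z : ℂ => GC (fun j => γ j ^ 2) (z ^ 2)) (γ j : ℂ) = 0 ∧ deriv (fun z : ℂ => GC (fun j => γ j ^ 2) (z ^ 2)) (γ j : ℂ) ≠ 0 := by
  have gpos := hγ.gpos
  have hg : StrictMono fun j => γ j ^ 2 := fun i j hij => pow_lt_pow_left₀ (hγ.mono hij) (gpos i).le two_ne_zero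
  have hg0 : 0 < (fun j => γ j ^ 2) 0 := pow_pos (gpos 0) 2
  have hs : Summable fun j => 1 / (fun j => γ j ^ 2) j := by
    have h1 : Summable fun j => 1 / (γ j ^ 2) ^ (7 / 8 : ℝ) := by
      refine Summable.of_nonneg_of_le (fun j => ?_) (fun j => ?_) hγ.sum
      · exact div_nonneg zero_le_one (Real.rpow_nonneg (sq_nonneg _) _)
      · refine div_le_div_of_nonneg_right ?_ (Real.rpow_nonneg (sq_nonneg _) _)
        exact_mod_cast hγ.m1 j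
    refine Summable.of_nonneg_of_le (fun j => ?_) (fun j => ?_) (h1.mul_left ((γ 0 ^ 2) ^ (-(1 / 8) : ℝ)))
    · simp only
      have := gpos j
      positivity
    · have hx : 0 < γ j ^ 2 := pow_pos (gpos j) 2
      have e : 1 / (γ j ^ 2) = (γ j ^ 2) ^ (-(1 / 8) : ℝ) * (1 / (γ j ^ 2) ^ (7 / 8 : ℝ)) := by
        rw [one_div ((γ j ^ 2) ^ (7 / 8 : ℝ)), ← Real.rpow_neg hx.le, ← Real.rpow_add hx, show (-(1 / 8) + -(7 / 8) : ℝ) = -1 by norm_num,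
          Real.rpow_neg_one, one_div]
      simp only
      rw [e]
      refine mul_le_mul_of_nonneg_right ?_ (div_nonneg zero_le_one (Real.rpow_nonneg hx.le _))
      refine Real.rpow_le_rpow_of_nonpos hg0 (hg.monotone (Nat.zero_le j)) (by norm_num)
  obtain ⟨hd, h00, hz, hdz, -, -⟩ := a_gcb (fun j => γ j ^ 2) hg hg0 hs
  refine ⟨hd.comp (by fun_prop), fun j => ⟨?_, ?_⟩⟩
  · simp only
    rw [hz]
    exact ⟨j, by push_cast; rfl⟩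
  · have h1 : HasDerivAt (fun z : ℂ => z ^ 2) (2 * (γ j : ℂ)) (γ j : ℂ) := by
      simpa using hasDerivAt_pow 2 (γ j : ℂ)
    have h2 : HasDerivAt (GC fun j => γ j ^ 2) (deriv (GC fun j => γ j ^ 2) ((γ j : ℂ) ^ 2)) ((γ j : ℂ) ^ 2) :=
      (hd ((γ j : ℂ) ^ 2)).hasDerivAt
    have h3 : HasDerivAt (fun z : ℂ => GC (fun j => γ j ^ 2) (z ^ 2))
        (deriv (GC fun j => γ j ^ 2) ((γ j : ℂ) ^ 2) * (2 * (γ j : ℂ))) (γ j : ℂ) :=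
      HasDerivAt.comp (h₂ := GC fun j => γ j ^ 2) (h := fun z : ℂ => z ^ 2) (γ j : ℂ) h2 h1
    rw [h3.deriv]
    refine mul_ne_zero ?_ (mul_ne_zero two_ne_zero (by exact_mod_cast (gpos j).ne'))
    have := hdz j
    push_cast at this
    exact this

/-- the extremal functions converge to the product over the zeros -/
theorem convG (hS : EX.S_LimS2) {γ : ℕ → ℝ} (hγ : CG.ENG γ)
    (hcS : ∀ (c : ℝ), 0 < c → ∀ (R : ℝ) {ε : ℝ}, 0 < ε → ∃ A : ℝ, ∀ (a : ℝ) (ν : ℕ∞) (f : ℝ → ℂ), A ≤ a → Big c a ν → XtG a ν f → ∀ z : ℂ, ‖z‖ ≤ R →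
      ‖Y23.TT f (I * z) - GC (fun j => γ j ^ 2) (z ^ 2) * SpN a ν z‖ ≤ ε) (R : ℝ) {ε : ℝ} (hε : 0 < ε) :
    ∃ K A : ℝ, 0 < K ∧ ∀ (a : ℝ) (ν : ℕ∞) (f : ℝ → ℂ), A ≤ a → Big K a ν → XtG a ν f → ∀ z : ℂ, ‖z‖ ≤ R →
      ‖Y23.TT f (I * z) - GC (fun j => γ j ^ 2) (z ^ 2)‖ ≤ ε := by
  obtain ⟨hd, -⟩ := gc_facts hγ
  obtain ⟨B, hB⟩ := (isCompact_closedBall (0 : ℂ) R).exists_bound_of_continuousOn hd.continuous.continuousOn
  obtain ⟨A1, h1⟩ := hcS 1 one_pos R (ε := ε / 2) (by positivity)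
  obtain ⟨K, A2, hK, h2⟩ := SpN_lim hS R (ε / (2 * (|B| + 1))) (by positivity)
  refine ⟨max K 1, max A1 A2, lt_of_lt_of_le hK (le_max_left _ _), fun a ν f ha hν hf z hz => ?_⟩
  have h3 := h1 a ν f ((le_max_left _ _).trans ha) (Big_mono (le_max_right _ _) hν) hf z hz
  have h4 := h2 a ν ((le_max_right _ _).trans ha) (Big_mono (le_max_left _ _) hν) z hz
  have h5 := hB z (by simpa using hz)
  have e : Y23.TT f (I * z) - GC (fun j => γ j ^ 2) (z ^ 2) = (Y23.TT f (I * z) - GC (fun j => γ j ^ 2) (z ^ 2) * SpN a ν z) +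
      GC (fun j => γ j ^ 2) (z ^ 2) * (SpN a ν z - 1) := by ring
  rw [e]
  refine (norm_add_le _ _).trans ?_
  rw [norm_mul]
  have h6 : ‖GC (fun j => γ j ^ 2) (z ^ 2)‖ * ‖SpN a ν z - 1‖ ≤ (|B| + 1) * (ε / (2 * (|B| + 1))) :=
    mul_le_mul (h5.trans ((le_abs_self B).trans (by linarith))) h4 (norm_nonneg _) (by positivity)
  have h7 : (|B| + 1) * (ε / (2 * (|B| + 1))) = ε / 2 := by field_simp
  linarith

/-- the basic sets: extremal functions of large degree -/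
def FS (K A : ℝ) : Set (ℝ × ℕ∞ × (ℝ → ℂ)) := {i | A ≤ i.1 ∧ Big K i.1 i.2.1 ∧ XtG i.1 i.2.1 i.2.2}

lemma FS_mono {K K' A A' : ℝ} (hK : K ≤ K') (hA : A ≤ A') : FS (D := D) K' A' ⊆ FS K A :=
  fun _ hi => ⟨hA.trans hi.1, Big_mono hK hi.2.1, hi.2.2⟩

/-- the filter of the extremal functions with `a → ∞`, `ν / a² → ∞` -/
def Fx : Filter (ℝ × ℕ∞ × (ℝ → ℂ)) where
  sets := {s | ∃ K A : ℝ, FS K A ⊆ s}
  univ_sets := ⟨0, 0, Set.subset_univ _⟩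
  sets_of_superset := by
    rintro x y ⟨K, A, h⟩ hxy
    exact ⟨K, A, h.trans hxy⟩
  inter_sets := by
    rintro x y ⟨K, A, h⟩ ⟨K', A', h'⟩
    exact ⟨max K K', max A A', Set.subset_inter ((FS_mono (le_max_left _ _) (le_max_left _ _)).trans h)
      ((FS_mono (le_max_right _ _) (le_max_right _ _)).trans h')⟩

lemma ev_Fx {p : ℝ × ℕ∞ × (ℝ → ℂ) → Prop} : (∀ᶠ i in Fx, p i) ↔ ∃ K A : ℝ, ∀ i ∈ FS K A, p i := Iff.rfl

lemma XtG.real (hP : S_XtPG) (hRH : RHG) {a : ℝ} {ν : ℕ∞} {f : ℝ → ℂ} (ha : 0 < a) (hf : XtG a ν f) (x : ℝ) : (Y23.TT f (I * x)).im = 0 := by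
  obtain ⟨-, -, h1, h2, -, -⟩ := hP hRH a ν f ha hf
  have h3 := h2 (I * x)
  rw [map_mul, conj_I, conj_ofReal, neg_mul, h1] at h3
  exact Complex.conj_eq_iff_im.1 h3.symm

/-- **zeros near small values** -/
theorem nearZ (hZD : EX.S_ZD) (hP : S_XtPG) (hRH : RHG) {γ : ℕ → ℝ} (hγ : CG.ENG γ)
    (hconv : ∀ (R : ℝ) {ε : ℝ}, 0 < ε → ∃ K A : ℝ, 0 < K ∧ ∀ (a : ℝ) (ν : ℕ∞) (f : ℝ → ℂ), A ≤ a → Big K a ν → XtG a ν f → ∀ z : ℂ, ‖z‖ ≤ R →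
      ‖Y23.TT f (I * z) - GC (fun j => γ j ^ 2) (z ^ 2)‖ ≤ ε) (j : ℕ) :
    ∃ C r K A : ℝ, 0 < C ∧ 0 < r ∧ 0 < K ∧ ∀ (a : ℝ) (ν : ℕ∞) (f : ℝ → ℂ), A ≤ a → Big K a ν → XtG a ν f → ∀ e : ℝ, e ≤ r →
      ‖Y23.TT f (I * γ j)‖ ≤ e → ∃ x : ℝ, |x - γ j| ≤ C * e ∧ Y23.TT f (I * x) = 0 := by
  obtain ⟨-, hf⟩ := gc_facts hγ
  obtain ⟨hG0, hG1⟩ := hf j
  have hT : TendstoLocallyUniformly (fun (i : ℝ × ℕ∞ × (ℝ → ℂ)) (z : ℂ) => Y23.TT i.2.2 (I * z)) (fun z => GC (fun j => γ j ^ 2) (z ^ 2)) (Fx (D := D)) := by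
    rw [tendstoLocallyUniformly_iff_forall_isCompact]
    intro K hK
    obtain ⟨R, hR⟩ := hK.isBounded.subset_closedBall 0
    rw [Metric.tendstoUniformlyOn_iff]
    intro ε hε
    obtain ⟨K', A, -, h⟩ := hconv R (half_pos hε)
    refine ev_Fx.2 ⟨K', A, fun i hi z hz => ?_⟩
    rw [dist_comm, dist_eq_norm]
    exact (h i.1 i.2.1 i.2.2 hi.1 hi.2.1 hi.2.2 z (by simpa using hR hz)).trans_lt (half_lt_self hε)
  obtain ⟨C, r, hC, hr, h⟩ := hZD Fx _ _ (γ j) hT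
    (ev_Fx.2 ⟨0, 1, fun i hi => (Y23.differentiable_TT hi.2.2.1.1).comp (by fun_prop)⟩)
    (ev_Fx.2 ⟨0, 1, fun i hi x => hi.2.2.real hP hRH (lt_of_lt_of_le one_pos hi.1) x⟩) hG0 hG1
  obtain ⟨K, A, h⟩ := ev_Fx.1 h
  refine ⟨C, r, max K 1, A, hC, hr, lt_of_lt_of_le one_pos (le_max_right _ _), fun a ν f ha hν hf e he he2 => ?_⟩
  exact h (a, ν, f) ⟨ha, Big_mono (le_max_left _ _) hν, hf⟩ e he he2

/-- the value at a zero is bounded by the value of the form -/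
lemma two_terms (hRH : RHG) {a : ℝ} (ha : 0 < a) {f : ℝ → ℂ} (hf : Y23.G.Hd a f) (h0 : Y23.TT f 0 = 1) {γ : ℝ} (hγ : γ ≠ 0)
    (hz : (1 / 2 + I * γ) ∈ D.Zs) : (m0 : ℝ) + ‖Y23.TT f (I * γ)‖ ^ 2 ≤ Y23.G.QQ f := by
  classical
  rw [Y23.G.QQ_eq_SS hRH]
  have hD : Y23.G.Dom f := hf.dom ha
  have hnn : ∀ ρ : Y23.G.Zt, 0 ≤ (Y23.G.mu (ρ : ℂ) : ℝ) * ‖Y23.TT f ((ρ : ℂ) - 1 / 2)‖ ^ 2 := fun ρ => by positivity
  have e1 : (1 / 2 + I * γ - 1 / 2 : ℂ) = I * γ := by ring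
  have h1 : ‖Y23.TT f (I * γ)‖ ^ 2 ≤ (Y23.G.mu (1 / 2 + I * γ) : ℝ) * ‖Y23.TT f (1 / 2 + I * γ - 1 / 2)‖ ^ 2 := by
    rw [e1]
    have h2 : (1 : ℝ) ≤ (Y23.G.mu (1 / 2 + I * γ) : ℝ) := by exact_mod_cast D.mpos _ hz
    nlinarith [sq_nonneg ‖Y23.TT f (I * γ)‖]
  by_cases hh : (1 / 2 : ℂ) ∈ D.Zs
  · have hne : (⟨1 / 2, hh⟩ : Y23.G.Zt) ≠ ⟨1 / 2 + I * γ, hz⟩ := by
      intro h
      have h2 := congrArg Subtype.val h
      simp only at h2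
      have h3 : I * (γ : ℂ) = 0 := by linear_combination -h2
      rcases mul_eq_zero.1 h3 with h4 | h4
      · exact I_ne_zero h4
      · exact hγ (by exact_mod_cast h4)
    have h2 := hD.sum_le_tsum {(⟨1 / 2, hh⟩ : Y23.G.Zt), ⟨1 / 2 + I * γ, hz⟩} (fun ρ _ => hnn ρ)
    rw [Finset.sum_pair hne] at h2
    simp only [sub_self, h0, norm_one, one_pow, mul_one] at h2
    have h3 : ((m0 : ℕ) : ℝ) = (Y23.G.mu (1 / 2 : ℂ) : ℝ) := by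
      unfold CG.m0
      rw [if_pos hh]
      rfl
    rw [h3]
    unfold Y23.G.SS
    linarith
  · have h2 := hD.sum_le_tsum {(⟨1 / 2 + I * γ, hz⟩ : Y23.G.Zt)} (fun ρ _ => hnn ρ)
    rw [Finset.sum_singleton] at h2
    have h3 : ((m0 : ℕ) : ℝ) = 0 := by
      unfold CG.m0
      rw [if_neg hh]
      simp
    rw [h3]
    unfold Y23.G.SS
    simp only at h2
    linarith

end

end Pool.Agent.Q286.XG
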