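import Pool.Agent.Q286.XG.Asm

set_option autoImplicit false

/-!
# Project EXG: all results for zero data
-/

open Filter Topology Finset MeasureTheory Complex
open Pool.Agent.Q240 Pool.Agent.Q240.CD
open Pool.Agent.Q240.CG (m0 mg zg)
open Pool.Agent.Q240.EX (Lc Big)

namespace Pool.Agent.Q286.XG

/-- the conclusion of `S_UZtG` -/
def C_UZtG : Prop := ∀ [D : Y23.G.ZD] [Y23.G.ZC] [CG.SD], RHG → ∀ γ : ℕ → ℝ, CG.ENG γ →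
  ∀ c : ℝ, 0 < c → ∀ R ε : ℝ, 0 < ε → ∃ A : ℝ, ∀ (a : ℝ) (ν : ℕ∞), A ≤ a → Big c a ν → ∀ δ : ℝ,
  (∀ g : ℝ → ℂ, Y23.G.F.Hn a ν g → Y23.TT g 0 = 1 → δ + m0 ≤ Y23.G.QQ g) →
    ∀ f : ℝ → ℂ, Y23.G.F.Hn a ν f → ∀ z : ℂ, ‖z‖ ≤ R →
      δ * ‖Y23.TT f (Complex.I * z) - Y23.TT f 0 * (GC (fun j => γ j ^ 2) (z ^ 2) * SpN a ν z)‖ ^ 2 ≤
        ε * (Y23.G.QQ f - m0 * ‖Y23.TT f 0‖ ^ 2)

/-- the conclusion of `S_NuG` -/
def C_NuG : Prop := ∀ [D : Y23.G.ZD] [Y23.G.ZC] [CG.SD], RHG → ∀ a : ℝ, 0 < a → ∀ R ε : ℝ, 0 < ε →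
  ∃ n : ℕ, ∀ (ν : ℕ∞) (f F : ℝ → ℂ), (n : ℕ∞) ≤ ν → XtG a ν f → XtG a ⊤ F →
    Y23.G.QQ f ≤ Y23.G.QQ F + ε ∧ ∀ w : ℂ, ‖w‖ ≤ R → ‖Y23.TT f w - Y23.TT F w‖ ≤ ε

/-- the conclusion of `S_RateFG` -/
def C_RateFG : Prop := ∀ [D : Y23.G.ZD] [Y23.G.ZC] [CG.SD], RHG → ∀ (E : ℝ → ℝ) (q : ℝ), Tendsto E atTop atTop → RG E q → ∀ c : ℝ, c < 2 * q →
  (∀ᶠ a : ℝ in atTop, ∀ f : ℝ → ℂ, XtG a ⊤ f → Y23.G.QQ f ≤ (m0 : ℝ) + Real.exp (-(c * E a))) ∧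
  ∀ γ : ℝ, γ ≠ 0 → (1 / 2 + Complex.I * γ) ∈ D.Zs → ∀ᶠ a : ℝ in atTop, ∀ f : ℝ → ℂ, XtG a ⊤ f →
    ‖Y23.TT f (Complex.I * γ)‖ ≤ Real.exp (-(c * E a))

/-- everything that is proved in the lemma jobs -/
structure JX : Prop where
  xte : S_XtEG
  xtp : S_XtPG
  uzt : C_UZtG
  nu : C_NuG
  neg : S_NegG
  val : S_ValG
  ratef : C_RateFG
  limS2 : EX.S_LimS2
  zd : EX.S_ZD

lemma exp_half {C x : ℝ} (hC : 0 < C) : ∀ᶠ u : ℝ in atTop, C * Real.exp (-((x + 1) * u)) ≤ Real.exp (-(x * u)) := by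
  filter_upwards [eventually_ge_atTop (Real.log C)] with u hu
  calc C * Real.exp (-((x + 1) * u)) = Real.exp (Real.log C + -((x + 1) * u)) := by rw [Real.exp_add, Real.exp_log hC]
    _ ≤ _ := by
      apply Real.exp_le_exp.2
      nlinarith

lemma exp_half' {C x y : ℝ} (hC : 0 < C) (hxy : x < y) : ∀ᶠ u : ℝ in atTop, C * Real.exp (-(y * u)) ≤ Real.exp (-(x * u)) := by
  filter_upwards [eventually_ge_atTop (Real.log C / (y - x))] with u hu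
  rw [div_le_iff₀ (by linarith)] at hu
  calc C * Real.exp (-(y * u)) = Real.exp (Real.log C + -(y * u)) := by rw [Real.exp_add, Real.exp_log hC]
    _ ≤ _ := by
      apply Real.exp_le_exp.2
      nlinarith

lemma tend_L : Tendsto (fun a : ℝ => a ^ 2 * Real.log a) atTop atTop :=
  (tendsto_pow_atTop (two_ne_zero)).atTop_mul_atTop₀ Real.tendsto_log_atTop

section

variable [D : Y23.G.ZD] [EC : Y23.G.ZC] [SD : CG.SD]

/-- the results under the Riemann hypothesis -/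
structure ResX : Prop where
  ex : ∀ (a : ℝ) (ν : ℕ∞), 0 < a → ∃ f : ℝ → ℂ, XtG a ν f
  str : ∀ (a : ℝ) (ν : ℕ∞) (f : ℝ → ℂ), 0 < a → XtG a ν f →
    (m0 : ℝ) < Y23.G.QQ f ∧ (∀ g : ℝ → ℂ, XtG a ν g → ∀ w, Y23.TT g w = Y23.TT f w) ∧ (∀ w, Y23.TT f (-w) = Y23.TT f w) ∧
      (∀ w, Y23.TT f ((starRingEnd ℂ) w) = (starRingEnd ℂ) (Y23.TT f w)) ∧ (∀ w, Y23.TT f w = 0 → w.re = 0)
  val : ∀ c : ℝ, ∃ K A : ℝ, 0 < K ∧ ∀ (a : ℝ) (ν : ℕ∞), A ≤ a → Big K a ν →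
    ∀ f : ℝ → ℂ, XtG a ν f → Y23.G.QQ f ≤ (m0 : ℝ) + Real.exp (-(c * a ^ 2 * Real.log a))
  coll : ∀ c : ℝ, 0 < c → ∀ R ε : ℝ, 0 < ε → ∃ A : ℝ, ∀ (a : ℝ) (ν : ℕ∞) (e f : ℝ → ℂ), A ≤ a → Big c a ν → XtG a ν e → Y23.G.F.Hn a ν f →
    ∀ w : ℂ, ‖w‖ ≤ R → (Y23.G.QQ e - m0) * ‖Y23.TT f w - Y23.TT f 0 * (CG.XrG (1 / 2 + w) * SpN a ν (-I * w))‖ ^ 2 ≤
      ε * (Y23.G.QQ f - m0 * ‖Y23.TT f 0‖ ^ 2)
  conv : ∀ R ε : ℝ, 0 < ε → ∃ K A : ℝ, 0 < K ∧ ∀ (a : ℝ) (ν : ℕ∞) (f : ℝ → ℂ), A ≤ a → Big K a ν → XtG a ν f →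
    ∀ w : ℂ, ‖w‖ ≤ R → ‖Y23.TT f w - CG.XrG (1 / 2 + w)‖ ≤ ε
  zer : ∀ s ∈ D.Zs, s ≠ 1 / 2 → ∀ c : ℝ, ∃ K A : ℝ, 0 < K ∧ ∀ (a : ℝ) (ν : ℕ∞) (f : ℝ → ℂ), A ≤ a → Big K a ν → XtG a ν f →
    ∃ t : ℝ, Y23.TT f (I * t) = 0 ∧ |t - s.im| ≤ Real.exp (-(c * a ^ 2 * Real.log a))
  zz : ∀ s ∈ D.Zs, s ≠ 1 / 2 → ∃ C r K A : ℝ, 0 < C ∧ 0 < r ∧ 0 < K ∧ ∀ (a : ℝ) (ν : ℕ∞) (f : ℝ → ℂ), A ≤ a → Big K a ν → XtG a ν f →
    ∀ e : ℝ, e ≤ r → ‖Y23.TT f (I * s.im)‖ ≤ e → ∃ x : ℝ, |x - s.im| ≤ C * e ∧ Y23.TT f (I * x) = 0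
  rateV : ∀ (E : ℝ → ℝ) (q : ℝ), Tendsto E atTop atTop → RG E q → ∀ c : ℝ, c < 2 * q → ∃ A : ℝ, ∀ a : ℝ, A ≤ a → ∃ n : ℕ,
    ∀ (ν : ℕ∞) (f : ℝ → ℂ), (n : ℕ∞) ≤ ν → XtG a ν f → Y23.G.QQ f ≤ (m0 : ℝ) + Real.exp (-(c * E a))
  rateZ : ∀ (E : ℝ → ℝ) (q : ℝ), Tendsto E atTop atTop → RG E q → ∀ c : ℝ, c < 2 * q → ∀ s ∈ D.Zs, s ≠ 1 / 2 → ∃ A : ℝ, ∀ a : ℝ, A ≤ a → ∃ n : ℕ,
    ∀ (ν : ℕ∞) (f : ℝ → ℂ), (n : ℕ∞) ≤ ν → XtG a ν f → ∃ t : ℝ, Y23.TT f (I * t) = 0 ∧ |t - s.im| ≤ Real.exp (-(c * E a))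

/-- a zero on the line off the centre is `1/2 ± i γ_j` -/
lemma zero_form {γ : ℕ → ℝ} (hγ : CG.ENG γ) (hRH : RHG) {s : ℂ} (hs : s ∈ D.Zs) (hs2 : s ≠ 1 / 2) :
    ∃ j, (s.im = γ j ∨ s.im = -γ j) := by
  have h1 : s = 1 / 2 + I * (s.im : ℂ) := by
    have h2 := hRH ⟨s, hs⟩
    simp only at h2
    apply Complex.ext
    · simp [h2]
    · simp
  have h2 : (1 / 2 + I * (s.im : ℂ)) ∈ D.Zs := by rw [← h1]; exact hs
  rcases (hγ.zer _).1 h2 with ⟨h3, -⟩ | ⟨j, h3 | h3⟩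
  · exfalso
    apply hs2
    rw [h1, h3, mul_zero, add_zero]
  · exact ⟨j, Or.inl (by exact_mod_cast h3)⟩
  · exact ⟨j, Or.inr (by exact_mod_cast h3)⟩

lemma mem_line (hRH : RHG) {s : ℂ} (hs : s ∈ D.Zs) : (1 / 2 + I * (s.im : ℂ)) ∈ D.Zs := by
  have h1 : s = 1 / 2 + I * (s.im : ℂ) := by
    have h2 := hRH ⟨s, hs⟩
    simp only at h2
    apply Complex.ext
    · simp [h2]
    · simp
  rw [← h1]
  exact hs

theorem resX (J : JX) (hRH : RHG) : ResX (D := D) := by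
  obtain ⟨γ, h1, h2, h3, h4, h5, h6⟩ := CG.jb.enum (D := D) hRH
  have hγ : CG.ENG γ := ⟨h1, h2, h3, h4, h5, h6⟩
  clear h1 h2 h3 h4 h5 h6
  have huz := J.uzt hRH
  have hcS : ∀ (c : ℝ), 0 < c → ∀ (R : ℝ) {ε : ℝ}, 0 < ε → ∃ A : ℝ, ∀ (a : ℝ) (ν : ℕ∞) (f : ℝ → ℂ), A ≤ a → Big c a ν → XtG a ν f → ∀ z : ℂ, ‖z‖ ≤ R →
      ‖Y23.TT f (I * z) - GC (fun j => γ j ^ 2) (z ^ 2) * SpN a ν z‖ ≤ ε := fun c hc R ε hε => convS huz J.xtp hRH hγ hc R hε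
  have hcv : ∀ (R : ℝ) {ε : ℝ}, 0 < ε → ∃ K A : ℝ, 0 < K ∧ ∀ (a : ℝ) (ν : ℕ∞) (f : ℝ → ℂ), A ≤ a → Big K a ν → XtG a ν f → ∀ z : ℂ, ‖z‖ ≤ R →
      ‖Y23.TT f (I * z) - GC (fun j => γ j ^ 2) (z ^ 2)‖ ≤ ε := fun R ε hε => convG J.limS2 hγ hcS R hε
  have hnz := nearZ J.zd J.xtp hRH hγ hcv
  have eI : ∀ w : ℂ, I * (-I * w) = w := fun w => by rw [← mul_assoc]; simp
  have eX : ∀ w : ℂ, CG.XrG (1 / 2 + w) = GC (fun j => γ j ^ 2) ((-I * w) ^ 2) := fun w => by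
    rw [hγ.xred]
    congr 1
    rw [mul_pow]
    simp
  have enorm : ∀ w : ℂ, ‖-I * w‖ = ‖w‖ := fun w => by simp
  -- zeros near small values, in both half lines
  have hzz : ∀ s ∈ D.Zs, s ≠ 1 / 2 → ∃ C r K A : ℝ, 0 < C ∧ 0 < r ∧ 0 < K ∧ ∀ (a : ℝ) (ν : ℕ∞) (f : ℝ → ℂ), A ≤ a → Big K a ν → XtG a ν f →
      ∀ e : ℝ, e ≤ r → ‖Y23.TT f (I * s.im)‖ ≤ e → ∃ x : ℝ, |x - s.im| ≤ C * e ∧ Y23.TT f (I * x) = 0 := by
    intro s hs hs2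
    obtain ⟨j, hj⟩ := zero_form hγ hRH hs hs2
    obtain ⟨C, r, K, A, hC, hr, hK, h⟩ := hnz j
    refine ⟨C, r, K, max A 1, hC, hr, hK, fun a ν f ha hν hf e he he2 => ?_⟩
    have ha0 : 0 < a := lt_of_lt_of_le one_pos ((le_max_right _ _).trans ha)
    have hev := (J.xtp hRH a ν f ha0 hf).2.2.1
    rcases hj with hj | hj
    · rw [hj] at he2 ⊢
      exact h a ν f ((le_max_left _ _).trans ha) hν hf e he he2
    · have e1 : Y23.TT f (I * s.im) = Y23.TT f (I * γ j) := by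
        rw [hj, ← hev]
        congr 1
        push_cast
        ring
      rw [e1] at he2
      obtain ⟨x, hx1, hx2⟩ := h a ν f ((le_max_left _ _).trans ha) hν hf e he he2
      refine ⟨-x, ?_, ?_⟩
      · rw [hj, ← abs_neg]
        have e2 : -(-x - -γ j) = x - γ j := by ring
        rw [e2]
        exact hx1
      · rw [← hev]
        have e2 : -(I * ((-x : ℝ) : ℂ)) = I * x := by push_cast; ring
        rw [e2]
        exact hx2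
  have him : ∀ s ∈ D.Zs, s ≠ 1 / 2 → s.im ≠ 0 := by
    intro s hs hs2 h0
    apply hs2
    have h2 := hRH ⟨s, hs⟩
    simp only at h2
    apply Complex.ext
    · simp [h2]
    · simp [h0]
  refine ⟨J.xte hRH, fun a ν f ha hf => ?_, J.val hRH, fun c hc R ε hε => ?_, fun R ε hε => ?_, fun s hs hs2 c => ?_, hzz,
    fun E q hE hq c hc => ?_, fun E q hE hq c hc s hs hs2 => ?_⟩
  · obtain ⟨h1, h2, h3, h4, h5, -⟩ := J.xtp hRH a ν f ha hf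
    exact ⟨h1, h2, h3, h4, h5⟩
  · obtain ⟨A, h⟩ := huz γ hγ c hc R ε hε
    refine ⟨A, fun a ν e f ha hν he hf w hw => ?_⟩
    have h1 := h a ν ha hν (Y23.G.QQ e - m0) he.le f hf (-I * w) (by rw [enorm]; exact hw)
    rw [eI] at h1
    rw [eX]
    exact h1
  · obtain ⟨K, A, hK, h⟩ := hcv R hε
    refine ⟨K, A, hK, fun a ν f ha hν hf w hw => ?_⟩
    have h1 := h a ν f ha hν hf (-I * w) (by rw [enorm]; exact hw)
    rw [eI] at h1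
    rw [eX]
    exact h1
  · obtain ⟨C, r, K1, A1, hC, hr, hK1, h1⟩ := hzz s hs hs2
    obtain ⟨K2, A2, hK2, h2⟩ := J.val (D := D) hRH (2 * (|c| + 1))
    have e1 : ∀ᶠ a : ℝ in atTop, C * Real.exp (-((|c| + 1) * (a ^ 2 * Real.log a))) ≤ Real.exp (-(|c| * (a ^ 2 * Real.log a))) :=
      tend_L.eventually (exp_half hC)
    have e2 : ∀ᶠ a : ℝ in atTop, Real.exp (-((|c| + 1) * (a ^ 2 * Real.log a))) ≤ r := by
      have h3 : Tendsto (fun a : ℝ => Real.exp (-((|c| + 1) * (a ^ 2 * Real.log a)))) atTop (𝓝 0) :=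
        Real.tendsto_exp_atBot.comp (tendsto_neg_atTop_atBot.comp (tend_L.const_mul_atTop (by positivity)))
      exact h3.eventually (ge_mem_nhds hr)
    obtain ⟨A3, hA3⟩ := eventually_atTop.1 (e1.and (e2.and (eventually_ge_atTop 1)))
    refine ⟨max K1 K2, max (max A1 A2) A3, lt_of_lt_of_le hK1 (le_max_left _ _), fun a ν f ha hν hf => ?_⟩
    obtain ⟨h4, h5, h6⟩ := hA3 a ((le_max_right _ _).trans ha)
    have ha0 : 0 < a := lt_of_lt_of_le one_pos h6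
    have hL : 0 ≤ a ^ 2 * Real.log a := mul_nonneg (sq_nonneg _) (Real.log_nonneg h6)
    have h7 := two_terms hRH ha0 hf.1.hd hf.2.1 (him s hs hs2) (mem_line hRH hs)
    have h8 := h2 a ν ((le_max_right _ _).trans ((le_max_left _ _).trans ha)) (Big_mono (le_max_right _ _) hν) f hf
    have h9 : ‖Y23.TT f (I * s.im)‖ ^ 2 ≤ Real.exp (-((|c| + 1) * (a ^ 2 * Real.log a))) ^ 2 := by
      rw [← Real.exp_nat_mul]
      have e3 : ((2 : ℕ) : ℝ) * -((|c| + 1) * (a ^ 2 * Real.log a)) = -(2 * (|c| + 1) * a ^ 2 * Real.log a) := by push_cast; ring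
      rw [e3]
      linarith
    have h10 : ‖Y23.TT f (I * s.im)‖ ≤ Real.exp (-((|c| + 1) * (a ^ 2 * Real.log a))) :=
      (pow_le_pow_iff_left₀ (norm_nonneg _) (Real.exp_pos _).le two_ne_zero).1 h9
    obtain ⟨x, hx1, hx2⟩ := h1 a ν f ((le_max_left _ _).trans ((le_max_left _ _).trans ha)) (Big_mono (le_max_left _ _) hν) hf _ h5 h10
    refine ⟨x, hx2, hx1.trans (h4.trans (Real.exp_le_exp.2 ?_))⟩
    have h11 := le_abs_self c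
    nlinarith
  · obtain ⟨h1, -⟩ := J.ratef (D := D) hRH E q hE hq ((c + 2 * q) / 2) (by linarith)
    have e1 : ∀ᶠ a : ℝ in atTop, 2 * Real.exp (-((c + 2 * q) / 2 * E a)) ≤ Real.exp (-(c * E a)) :=
      hE.eventually (exp_half' two_pos (by linarith))
    obtain ⟨A, hA⟩ := eventually_atTop.1 (h1.and (e1.and (eventually_gt_atTop 0)))
    refine ⟨A, fun a ha => ?_⟩
    obtain ⟨h2, h3, ha0⟩ := hA a ha
    obtain ⟨F, hF⟩ := J.xte (D := D) hRH a ⊤ ha0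
    obtain ⟨n, hn⟩ := J.nu (D := D) hRH a ha0 0 (Real.exp (-((c + 2 * q) / 2 * E a))) (Real.exp_pos _)
    refine ⟨n, fun ν f hν hf => ?_⟩
    have h4 := (hn ν f F hν hf hF).1
    have h5 := h2 F hF
    linarith
  · obtain ⟨C, r, K1, A1, hC, hr, hK1, h1⟩ := hzz s hs hs2
    obtain ⟨-, h2⟩ := J.ratef (D := D) hRH E q hE hq ((c + 2 * q) / 2) (by linarith)
    have h3 := h2 s.im (him s hs hs2) (mem_line hRH hs)
    have e1 : ∀ᶠ a : ℝ in atTop, 2 * C * Real.exp (-((c + 2 * q) / 2 * E a)) ≤ Real.exp (-(c * E a)) :=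
      hE.eventually (exp_half' (by positivity) (by linarith))
    have e3 : ∃ c' : ℝ, 0 < c' ∧ c' < 2 * q ∨ 2 * q ≤ 0 := by
      by_cases h : 0 < 2 * q
      · exact ⟨q, Or.inl ⟨by linarith, by linarith⟩⟩
      · exact ⟨0, Or.inr (not_lt.1 h)⟩
    -- smallness of the value: by the other rate
    obtain ⟨K2, A2, hK2, h8⟩ := J.val (D := D) hRH 1
    have e4 : ∀ᶠ a : ℝ in atTop, Real.exp (-(1 * a ^ 2 * Real.log a)) ≤ (r / 2) ^ 2 := by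
      have h5 : Tendsto (fun a : ℝ => Real.exp (-(1 * (a ^ 2 * Real.log a)))) atTop (𝓝 0) :=
        Real.tendsto_exp_atBot.comp (tendsto_neg_atTop_atBot.comp (tend_L.const_mul_atTop one_pos))
      filter_upwards [h5.eventually (ge_mem_nhds (by positivity : (0 : ℝ) < (r / 2) ^ 2))] with a ha
      rw [mul_assoc]
      exact ha
    obtain ⟨A, hA⟩ := eventually_atTop.1 (h3.and (e1.and (e4.and (eventually_ge_atTop 1))))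
    refine ⟨max (max A1 A2) A, fun a ha => ?_⟩
    obtain ⟨h4, h5, h6, h7⟩ := hA a ((le_max_right _ _).trans ha)
    have ha0 : 0 < a := lt_of_lt_of_le one_pos h7
    obtain ⟨F, hF⟩ := J.xte (D := D) hRH a ⊤ ha0
    set e0 : ℝ := min (Real.exp (-((c + 2 * q) / 2 * E a))) (r / 2) with he0
    have he0p : 0 < e0 := lt_min (Real.exp_pos _) (by positivity)
    obtain ⟨n, hn⟩ := J.nu (D := D) hRH a ha0 ‖(I * (s.im : ℂ))‖ e0 he0p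
    refine ⟨max n ⌈max K1 K2 * a ^ 2⌉₊, fun ν f hν hf => ?_⟩
    have hν1 : (n : ℕ∞) ≤ ν := le_trans (by exact_mod_cast le_max_left _ _) hν
    have hν2 : Big (max K1 K2) a ν := le_trans (by exact_mod_cast le_max_right _ _) hν
    have h9 := (hn ν f F hν1 hf hF).2 (I * (s.im : ℂ)) le_rfl
    have h10 := h4 F hF
    -- the value of `F` is small as well
    have h11 := two_terms hRH ha0 hF.1.hd hF.2.1 (him s hs hs2) (mem_line hRH hs)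
    have h12 := h8 a ⊤ ((le_max_right _ _).trans ((le_max_left _ _).trans ha)) (Big_top _ _) F hF
    have h13 : ‖Y23.TT F (I * s.im)‖ ≤ r / 2 := by
      refine (pow_le_pow_iff_left₀ (norm_nonneg _) (by positivity) two_ne_zero).1 ?_
      linarith
    have h14 : ‖Y23.TT f (I * s.im)‖ ≤ e0 + ‖Y23.TT F (I * s.im)‖ := by
      have e5 : Y23.TT f (I * s.im) = (Y23.TT f (I * s.im) - Y23.TT F (I * s.im)) + Y23.TT F (I * s.im) := by ring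
      calc ‖Y23.TT f (I * s.im)‖ = ‖(Y23.TT f (I * s.im) - Y23.TT F (I * s.im)) + Y23.TT F (I * s.im)‖ := by rw [← e5]
        _ ≤ _ := (norm_add_le _ _).trans (by linarith)
    have h15 : e0 + ‖Y23.TT F (I * s.im)‖ ≤ r := by
      have := min_le_right (Real.exp (-((c + 2 * q) / 2 * E a))) (r / 2)
      linarith
    obtain ⟨x, hx1, hx2⟩ := h1 a ν f ((le_max_left _ _).trans ((le_max_left _ _).trans ha)) (Big_mono (le_max_left _ _) hν2) hf _ h15 h14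
    refine ⟨x, hx2, hx1.trans (le_trans ?_ h5)⟩
    have h16 := min_le_left (Real.exp (-((c + 2 * q) / 2 * E a))) (r / 2)
    have h17 : e0 + ‖Y23.TT F (I * s.im)‖ ≤ 2 * Real.exp (-((c + 2 * q) / 2 * E a)) := by linarith
    calc C * (e0 + ‖Y23.TT F (I * s.im)‖) ≤ C * (2 * Real.exp (-((c + 2 * q) / 2 * E a))) := mul_le_mul_of_nonneg_left h17 hC.le
      _ = _ := by ring

end

end Pool.Agent.Q286.XG
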