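import Pool.Agent.Q240.EX.Stm4
import Pool.Agent.Q240.CG.All
import Pool.Agent.Q240.CG.Sym
import Pool.Agent.Q286.TR.Base

set_option autoImplicit false

/-!
# Project EXG (extremal functions of Weil's form of a general L-function, all degrees): definitions

`D : Y23.G.ZD` are zero data (the zeros `D.Zs` of a completed L-function, multiplicities `D.mul`, `|Re s - 1/2| ≤ 1`, symmetric under
`s ↦ 1 - conj s`), `Y23.G.ZC` coercivity, `CG.SD` symmetry under `s ↦ conj s`.  `CG.m0` is the multiplicity of the central zero (`0` if there is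
none), `CG.mg z` the multiplicity at `1/2 + i z`, `CG.ENG γ`: `γ` are the positive ordinates in increasing order.
-/

open Polynomial Filter Topology Finset MeasureTheory
open Pool.Agent.Q240 Pool.Agent.Q240.CD
open Pool.Agent.Q240.CG (m0 mg zg)
open Pool.Agent.Q240.EX (Lc Big)

namespace Pool.Agent.Q286.XG

/-- the Riemann hypothesis for zero data -/
def RHG [D : Y23.G.ZD] : Prop := ∀ ρ : Y23.G.Zt, (ρ : ℂ).re = 1 / 2

/-- extremal functions: `f` minimises Weil's form among the functions of degree at most `ν` with `TT f 0 = 1` -/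
def XtG [D : Y23.G.ZD] (a : ℝ) (ν : ℕ∞) (f : ℝ → ℂ) : Prop := Y23.G.F.Hn a ν f ∧ Y23.TT f 0 = 1 ∧
  ∀ g : ℝ → ℂ, Y23.G.F.Hn a ν g → Y23.TT g 0 = 1 → Y23.G.QQ f ≤ Y23.G.QQ g

/-- the product over the nodes beyond the degree (`1` if the degree is infinite) -/
noncomputable def SpN (a : ℝ) (ν : ℕ∞) (z : ℂ) : ℂ := if ν = ⊤ then 1 else Sp a ν.toNat z

open Classical in
/-- the multiplicity of a point (`0` if it is not a zero) -/
noncomputable def mc [D : Y23.G.ZD] (s : ℂ) : ℕ := if s ∈ D.Zs then D.mul s else 0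

/-- trial functions concentrated at every single point of the line, with the accuracy `exp (- c E(a))`, `c < 2 q` -/
def RG [D : Y23.G.ZD] (E : ℝ → ℝ) (q : ℝ) : Prop := ∀ γ c : ℝ, c < 2 * q → ∃ C : ℝ, ∀ᶠ a : ℝ in atTop, ∃ G : ℝ → ℂ,
  Y23.G.Hd a G ∧ Y23.TT G (Complex.I * γ) = 1 ∧ ‖Y23.TT G 0‖ ≤ C ∧
    Y23.G.SS G ≤ (mc (1 / 2 + Complex.I * γ) : ℝ) + Real.exp (-(c * E a))

end Pool.Agent.Q286.XG
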