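import Pool.Agent.Q286.TR.HW
import Pool.Agent.Q286.XG.Cl2

set_option autoImplicit false

/-!
# Hasse-Weil L-functions attached to newforms, with the degree (copy of `TR.exH`)
-/

namespace Pool.Agent.Q286.TR

open UpperHalfPlane hiding I
open MatrixGroups CongruenceSubgroup
open Complex MeasureTheory Filter Topology
open Pool.Agent.TH839.NA (RawT RawTL nf_rawT)
open Pool.Agent.W355.UN (Conv prod_get)
open Pool.Agent.W355.LJ (IsNF)
open Pool.Agent.H304R3.HK (ts gen_log)
open Pool.Agent.Q246.HW (Newform IsNewform Attached IsWeil IsCompleted conv)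
open Pool.Agent.Q246.NC (nco nco_eq frm_newfC frm_euler)

/-- the L-function of one newform -/
theorem inD_newf (g : Newform) {i : ℕ} (h1 : g.k ≤ i + 1) (h2 : 2 ∣ i + 1 - g.k) :
    InD 2 0 g.N (fun s => Gammaℂ (s + i / 2 - g.twist i)) (LSeries (nco g.f)) ∧ IsTr (LSeries (nco g.f)) (tn g) ∧
      ∀ s : ℂ, 2 ≤ s.re → DifferentiableAt ℂ (LSeries (nco g.f)) s ∧ LSeries (nco g.f) s ≠ 0 := by
  have : NeZero g.N := ⟨by have := g.N_pos; omega⟩
  have hg := g.isNewform
  obtain ⟨w, hw, hfr⟩ := hg.fricke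
  obtain ⟨c, X, h⟩ := nf_rawT g.f (w := w) g.k_pos ⟨hg.one, hw, hfr⟩ hg.mul
    (fun p hp => ⟨g.ψ (p : ZMod g.N) * (p : ℂ) ^ (g.k - 1), fun j => hg.pow p j hp⟩)
  have h' : RawTL (1 / 2) [(((((g.k : ℝ) - 1) / 2) : ℝ) : ℂ), (((((g.k : ℝ) + 1) / 2) : ℝ) : ℂ)] 0 g.N (nco g.f) c X := h
  have hk1 : (1 : ℝ) ≤ g.k := by exact_mod_cast g.k_pos
  have htw : (g.twist i : ℂ) = (i + 1 - g.k) / 2 := by
    unfold Newform.twist
    rw [Nat.cast_div h2 (by norm_num), Nat.cast_sub h1]
    push_cast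
    rfl
  refine ⟨⟨_, _, _, _, rfl, h', fun α hα => ?_, fun s => ?_, 0, fun _ _ => rfl⟩,
    (isTr_raw h').congr_tr fun n => conv_uniq (frmG g).one h'.conv (conv_tn g) n, fun s hs => ?_⟩
  · simp only [List.mem_cons, List.not_mem_nil, or_false] at hα
    rcases hα with rfl | rfl
    · rw [Complex.ofReal_re]
      linarith
    · rw [Complex.ofReal_re]
      linarith
  · simp only [List.map_cons, List.map_nil, List.prod_cons, List.prod_nil, mul_one]
    rw [htw]
    have e1 : s + (i : ℂ) / 2 - (i + 1 - g.k) / 2 = s + ((((g.k : ℝ) - 1) / 2 : ℝ) : ℂ) := by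
      push_cast
      ring
    have e2 : s + (((((g.k : ℝ) + 1) / 2) : ℝ) : ℂ) = s + ((((g.k : ℝ) - 1) / 2 : ℝ) : ℂ) + 1 := by
      push_cast
      ring
    rw [e1, e2, Gammaℝ_mul_Gammaℝ_add_one]
  · exact ⟨RawT.lser_an h' (by norm_num at hs ⊢; linarith), (RawT.coef h' (s := s) (by norm_num at hs ⊢; linarith)).2.1⟩

theorem exH2 {N i : ℕ} {R : ℕ → ℕ → Multiset ℂ} {l : List Newform} (h : Attached N i R l) {F Λ : ℂ → ℂ}
    (hc : IsCompleted N i R l F Λ) :
    ∃ L : LFunction, L.m = 2 * l.length ∧ L.Q = (((l.map Newform.N).prod : ℕ) : ℝ) ∧ (∀ (a : ℝ) (f : ℝ → ℂ), W L a f = WH i (((l.map Newform.N).prod : ℕ) : ℝ)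
      (fun s => (l.map fun g => Gammaℂ (s - g.twist i)).prod)
      (fun n => trH N i R l n.minFac (n.factorization n.minFac)) a f) ∧
      ∃ k : ℂ, k ≠ 0 ∧ ∀ s, L.Λ s = k * Λ (s + (((i : ℂ) + 1) / 2 - 1 / 2)) := by
  have hw := fun g (hg : g ∈ l) => inD_newf g (h.weight g hg).1 (h.weight g hg).2
  have hin := InD.list (fun _ : Newform => 2) (fun _ : Newform => 0) (fun g : Newform => (g.N : ℝ)) (fun g s => Gammaℂ (s + i / 2 - g.twist i))
    (fun g => LSeries (nco g.f)) l h.ne (fun g hg => (hw g hg).1)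
  have e0 : (l.map fun _ : Newform => 0).sum = 0 := by simp
  have eA : (l.map fun g : Newform => (g.N : ℝ)).prod = (((l.map Newform.N).prod : ℕ) : ℝ) := by
    rw [Nat.cast_list_prod, List.map_map]
    rfl
  have em : (l.map fun _ : Newform => 2).sum = 2 * l.length := by simp [mul_comm]
  rw [e0, eA, em] at hin
  obtain ⟨A, hA⟩ : ∃ A : ℕ, A = (l.map Newform.N).prod := ⟨_, rfl⟩
  rw [← hA] at hin ⊢
  have hA1 : 1 ≤ A := by
    rw [hA]
    have hlev : ∀ g ∈ l, 1 ≤ g.N := fun g _ => g.N_pos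
    clear hin hw hc h e0 eA em hA
    induction l with
    | nil => simp
    | cons a l ih =>
      rw [List.map_cons, List.prod_cons]
      exact Nat.mul_pos a.N_pos (ih fun g hg => hlev g (List.mem_cons_of_mem _ hg))
  have hA0 : (0 : ℝ) < A := by exact_mod_cast hA1
  have hAc : (A : ℂ) ≠ 0 := by exact_mod_cast (show A ≠ 0 by omega)
  have htr := (isTr_list (fun g : Newform => LSeries (nco g.f)) tn l (fun g hg => (hw g hg).2.1) (fun g hg => (hw g hg).2.2)).1
  obtain ⟨-, L, hLm, hLQ, hcomp, hu, hWG⟩ := hin.lf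
  -- the Euler products
  have hF : ∀ s : ℂ, 1 < s.re → F (s + i / 2) = (l.map fun g => LSeries (nco g.f) s).prod := by
    intro s hs
    have hre : (i : ℝ) / 2 + 1 < (s + i / 2).re := by
      have : (s + i / 2).re = s.re + (i : ℝ) / 2 := by
        rw [add_re, show ((i : ℂ) / 2) = (((i : ℝ) / 2 : ℝ) : ℂ) by push_cast; rfl, ofReal_re]
      rw [this]
      linarith
    have h1 := hc.good (s + i / 2) hre
    have h2 := hasProd_list (fun (g : Newform) (p : Nat.Primes) => (1 - nco g.f p * ((p : ℕ) : ℂ) ^ (-s) +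
      g.ψ ((p : ℕ) : ZMod g.N) * (((p : ℕ) : ℂ) ^ (-s)) ^ 2)⁻¹) (fun g => LSeries (nco g.f) s) l (fun g _ => by
        rw [lser_nco]
        exact frm_euler (frmG g) hs)
    refine h1.unique (h2.congr_fun fun p => ?_)
    rw [Pool.Agent.Q246.NC.prod_inv_list]
    congr 1
    have e1 : (l.map fun g : Newform => 1 - nco g.f p * ((p : ℕ) : ℂ) ^ (-s) +
        g.ψ ((p : ℕ) : ZMod g.N) * (((p : ℕ) : ℂ) ^ (-s)) ^ 2).prod =
        (l.map fun g => g.euler i p (((p : ℕ) : ℂ) ^ (-(s + i / 2)))).prod :=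
      congrArg List.prod (List.map_congr_left fun g hg =>
        Pool.Agent.Q246.HW.euler_eq g (h.weight g hg).1 (h.weight g hg).2 p.2.pos s)
    rw [e1]
    split_ifs with hpN
    · rfl
    · rw [h.factor p p.2 hpN]
  -- the completed function
  have hk0 : (A : ℂ) ^ (-((i : ℂ) / 4)) ≠ 0 := by
    rw [Ne, Complex.cpow_eq_zero_iff]
    exact fun h => hAc h.1
  have hΛ : (fun s => (A : ℂ) ^ (-((i : ℂ) / 4)) * Λ (s + i / 2)) = L.Λ := by
    refine hu _ ⟨(hc.entire.comp (by fun_prop)).const_mul _, 2, fun s hs => ?_⟩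
    have hre : (i : ℝ) / 2 < (s + i / 2).re := by
      have : (s + i / 2).re = s.re + (i : ℝ) / 2 := by
        rw [add_re, show ((i : ℂ) / 2) = (((i : ℝ) / 2 : ℝ) : ℂ) by push_cast; rfl, ofReal_re]
      rw [this]
      linarith
    beta_reduce
    rw [hc.eq _ hre, hF s (by linarith), ← hA, pow_zero, one_mul]
    have e1 : (A : ℂ) ^ ((s + i / 2) / 2) = (A : ℂ) ^ ((i : ℂ) / 4) * (A : ℂ) ^ (s / 2) := by
      rw [← Complex.cpow_add _ _ hAc]
      congr 1
      ring
    have e2 : (A : ℂ) ^ (-((i : ℂ) / 4)) * (A : ℂ) ^ ((i : ℂ) / 4) = 1 := by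
      rw [← Complex.cpow_add _ _ hAc, neg_add_cancel, Complex.cpow_zero]
    rw [e1]
    have e3 : (((A : ℕ) : ℝ) : ℂ) = (A : ℂ) := by push_cast; rfl
    rw [e3]
    linear_combination ((A : ℂ) ^ (s / 2) * (l.map fun g : Newform => Gammaℂ (s + i / 2 - g.twist i)).prod *
      (l.map fun g => LSeries (nco g.f) s).prod) * e2
  refine ⟨L, hLm, hLQ, fun b f => ?_, _, hk0, fun s => ?_⟩
  · rw [← hWG _ htr b f]
    unfold WG WH
    rw [Nat.cast_zero, mul_zero, zero_mul, zero_add]
    congr 1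
    · congr 1
      refine integral_congr_ae (Eventually.of_forall fun x => ?_)
      simp only [mc_line]
      congr 4
      have e1 : logDeriv (fun s : ℂ => (l.map fun g : Newform => Gammaℂ (s + i / 2 - g.twist i)).prod) (1 / 2 + x * I) =
          logDeriv (fun s : ℂ => (l.map fun g : Newform => Gammaℂ (s - g.twist i)).prod) ((((i : ℂ) + 1) / 2) + x * I) := by
        have e2 : (fun s : ℂ => (l.map fun g : Newform => Gammaℂ (s + i / 2 - g.twist i)).prod) =
            fun s => (fun s : ℂ => (l.map fun g : Newform => Gammaℂ (s - g.twist i)).prod) (s + i / 2) := rfl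
        rw [e2]
        unfold logDeriv
        simp only [Pi.div_apply]
        rw [deriv_comp_add_const (f := fun s : ℂ => (l.map fun g : Newform => Gammaℂ (s - g.twist i)).prod)]
        have e3 : 1 / 2 + (x : ℂ) * I + i / 2 = ((i : ℂ) + 1) / 2 + x * I := by ring
        rw [e3]
      rw [e1]
    · refine congrArg (fun z : ℂ => 2 * z.re) (Finset.sum_congr rfl fun n _ => ?_)
      congr 1
      by_cases hpp : IsPrimePow n
      · obtain ⟨p, k, hp, hk, rfl⟩ := hpp
        have hp' : p.Prime := hp.nat_prime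
        have hp0 : (0 : ℝ) < p := by exact_mod_cast hp'.pos
        have e1 : (p ^ k).minFac = p := hp'.pow_minFac hk.ne'
        have e2 : (p ^ k).factorization p = k := by
          rw [hp'.factorization_pow, Finsupp.single_eq_same]
        simp only [tn]
        rw [e1, e2, trH_eq h hp' hk]
        have e3 : ((((p ^ k : ℕ) : ℝ) ^ (((i : ℝ) + 1) / 2) : ℝ)) = (((p : ℝ) ^ ((i : ℝ) / 2)) ^ k) * Real.sqrt ((p ^ k : ℕ) : ℝ) := by
          have hn0 : (0 : ℝ) < ((p ^ k : ℕ) : ℝ) := by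
            push_cast
            positivity
          rw [Real.sqrt_eq_rpow, show ((i : ℝ) + 1) / 2 = (i : ℝ) / 2 + 1 / 2 by ring, Real.rpow_add hn0]
          congr 1
          rw [Nat.cast_pow, ← Real.rpow_natCast, ← Real.rpow_natCast, ← Real.rpow_mul hp0.le, ← Real.rpow_mul hp0.le, mul_comm]
        rw [e3]
        have e4 : (((p : ℝ) ^ ((i : ℝ) / 2) : ℝ) : ℂ) ^ k ≠ 0 := by
          refine pow_ne_zero _ ?_
          have := Real.rpow_pos_of_pos hp0 ((i : ℝ) / 2)
          exact_mod_cast this.ne'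
        have e5 : ((Real.sqrt ((p ^ k : ℕ) : ℝ) : ℝ) : ℂ) ≠ 0 := by
          have : (0 : ℝ) < ((p ^ k : ℕ) : ℝ) := by
            push_cast
            positivity
          have := Real.sqrt_pos.2 this
          exact_mod_cast this.ne'
        rw [Complex.ofReal_mul, Complex.ofReal_pow]
        field_simp
      · have h0 : ArithmeticFunction.vonMangoldt n = 0 := ArithmeticFunction.vonMangoldt_eq_zero_iff.2 hpp
        rw [h0]
        simp
  · rw [← hΛ]
    have e : s + (((i : ℂ) + 1) / 2 - 1 / 2) = s + i / 2 := by ring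
    rw [e]

end Pool.Agent.Q286.TR
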