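import Pool.Agent.Q286.XG.Core
import Pool.Agent.Q286.TR.Gen

set_option autoImplicit false

/-!
# Project EXG: the results for an L-function, in any normalisation
-/

open Filter Topology MeasureTheory Complex
open Pool.Agent.Q240 Pool.Agent.Q240.CD
open Pool.Agent.Q240.CG (m0 mg zg)
open Pool.Agent.Q286.TR

namespace Pool.Agent.Q286.XG

/-- the form domain: square integrable functions on `[-a, a]` such that Weil's form converges -/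
def FD (c : ℂ) (a : ℝ) (f : ℝ → ℂ) : Prop := MemLp f 2 volume ∧ (∀ x : ℝ, a < |x| → f x = 0) ∧
  Integrable fun t : ℝ => Real.log (3 + |t|) * ‖MC c f (c + t * I)‖ ^ 2

/-- the functions of degree at most `ν`: trigonometric polynomials, or (`ν = ∞`) all functions in the form domain -/
def Deg (c : ℂ) (a : ℝ) (ν : ℕ∞) (f : ℝ → ℂ) : Prop := (∃ n : ℕ, ν = n ∧ Trig a n f) ∨ (ν = ⊤ ∧ FD c a f)

/-- extremal functions of the form `V` -/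
def Ext (V : ℝ → (ℝ → ℂ) → ℝ) (c : ℂ) (a : ℝ) (ν : ℕ∞) (f : ℝ → ℂ) : Prop :=
  Deg c a ν f ∧ MC c f c = 1 ∧ ∀ g : ℝ → ℂ, Deg c a ν g → MC c g c = 1 → V a f ≤ V a g

/-- the product over the nodes beyond the degree -/
noncomputable def SC (c : ℂ) (a : ℝ) (ν : ℕ∞) (s : ℂ) : ℂ :=
  ∏' k : ℕ, if (k : ℕ∞) ≤ ν then 1 else 1 + ((a : ℂ) * (s - c) / (Real.pi * k)) ^ 2

/-- the degree is at least `K a²` -/
def Large (K a : ℝ) (ν : ℕ∞) : Prop := ∀ n : ℕ, ν = n → K * a ^ 2 ≤ n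

lemma large_big {K a : ℝ} {ν : ℕ∞} (h : Large K a ν) : EX.Big K a ν := by
  unfold EX.Big
  by_cases hν : ν = ⊤
  · rw [hν]; exact le_top
  · obtain ⟨n, rfl⟩ := ENat.ne_top_iff_exists.1 hν
    exact_mod_cast Nat.ceil_le.2 (h n rfl)

lemma SC_eq (c : ℂ) (a : ℝ) (ν : ℕ∞) (s : ℂ) : SC c a ν s = SpN a ν (-I * (s - c)) := by
  unfold SC SpN
  by_cases hν : ν = ⊤
  · rw [if_pos hν, hν]
    simp
  · obtain ⟨n, rfl⟩ := ENat.ne_top_iff_exists.1 hν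
    rw [if_neg hν, ENat.toNat_coe]
    unfold Sp
    have hinj : Function.Injective fun k : ℕ => n + 1 + k := fun i j h => by simpa using h
    rw [← hinj.tprod_eq (f := fun k : ℕ => if (k : ℕ∞) ≤ (n : ℕ∞) then (1 : ℂ) else 1 + ((a : ℂ) * (s - c) / (Real.pi * k)) ^ 2) ?_]
    · refine tprod_congr fun k => ?_
      have h1 : ¬ ((n + 1 + k : ℕ) : ℕ∞) ≤ (n : ℕ∞) := by
        rw [Nat.cast_le]
        omega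
      rw [if_neg h1]
      unfold xk
      have h2 : ((n + 1 + k : ℕ) : ℂ) ≠ 0 := by exact_mod_cast (by omega : n + 1 + k ≠ 0)
      have hpi : (Real.pi : ℂ) ≠ 0 := by exact_mod_cast Real.pi_ne_zero
      by_cases ha : a = 0
      · subst ha
        simp
      · have ha' : (a : ℂ) ≠ 0 := by exact_mod_cast ha
        have h3 : (-I * (s - c)) ^ 2 = -(s - c) ^ 2 := by rw [mul_pow]; simp
        rw [h3]
        push_cast at h2 ⊢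
        field_simp
        ring
    · intro k hk
      rw [Function.mem_mulSupport] at hk
      by_cases h : (k : ℕ∞) ≤ (n : ℕ∞)
      · exact absurd (if_pos h) hk
      · refine ⟨k - (n + 1), ?_⟩
        rw [Nat.cast_le] at h
        simp only
        omega

lemma fd_iff (c : ℂ) (a : ℝ) (f : ℝ → ℂ) : FD c a f ↔ Y23.G.Hd a f := by
  unfold FD Y23.G.Hd Y23.Fa
  have e : (fun t : ℝ => Real.log (3 + |t|) * ‖MC c f (c + t * I)‖ ^ 2) = fun t : ℝ => Y23.G.Lg t * ‖Y23.TT f (t * I)‖ ^ 2 := by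
    funext t
    rw [mc_line, M_line]
    rfl
  rw [e, and_assoc]

lemma hn_top {a : ℝ} {f : ℝ → ℂ} (h : Y23.G.Hd a f) : Y23.G.F.Hn a ⊤ f := ⟨h.1, h.2, fun k hk => absurd hk (not_lt.2 le_top)⟩

lemma deg_hn {c : ℂ} {a : ℝ} (ha : 0 < a) {ν : ℕ∞} {f : ℝ → ℂ} (h : Deg c a ν f) : Y23.G.F.Hn a ν f := by
  rcases h with ⟨n, rfl, h⟩ | ⟨rfl, h⟩
  · exact Tg_Hn ha h
  · exact hn_top ((fd_iff c a f).1 h)

lemma hn_deg (c : ℂ) {a : ℝ} (ha : 0 < a) {ν : ℕ∞} {f : ℝ → ℂ} (h : Y23.G.F.Hn a ν f) : ∃ g, Deg c a ν g ∧ ∀ w, Y23.TT g w = Y23.TT f w := by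
  by_cases hν : ν = ⊤
  · exact ⟨f, Or.inr ⟨hν, (fd_iff c a f).2 h.hd⟩, fun _ => rfl⟩
  · obtain ⟨n, rfl⟩ := ENat.ne_top_iff_exists.1 hν
    obtain ⟨g, hg, h1⟩ := Hn_Tg a_rep a_trigInv ha h
    exact ⟨g, Or.inl ⟨n, rfl, hg⟩, h1⟩

lemma mc_TT (c : ℂ) (f : ℝ → ℂ) (s : ℂ) : MC c f s = Y23.TT f (s - c) := rfl

lemma mc_TT0 (c : ℂ) (f : ℝ → ℂ) : MC c f c = Y23.TT f 0 := by rw [mc_TT, sub_self]

section

variable {L : LFunction} {Λ : ℂ → ℂ} {c : ℂ} {r : ℝ} {k : ℂ} {V : ℝ → (ℝ → ℂ) → ℝ} {q : ℝ} {P : ℂ → Prop}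

lemma ext_XtG (hq : 0 < q) (hV : ∀ a, 0 < a → ∀ f : ℝ → ℂ, Y23.G.Hd a f → V a f = q * Y23.G.QQ (D := D2 L) f)
    {a : ℝ} (ha : 0 < a) {ν : ℕ∞} {f : ℝ → ℂ} : Ext V c a ν f ↔ Deg c a ν f ∧ XtG (D := D2 L) a ν f := by
  constructor
  · rintro ⟨h1, h2, h3⟩
    refine ⟨h1, deg_hn ha h1, by rw [← mc_TT0 c]; exact h2, fun g hg h0 => ?_⟩
    obtain ⟨g', hg', h4⟩ := hn_deg c ha hg
    have h5 := h3 g' hg' (by rw [mc_TT0, h4, h0])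
    rw [hV a ha f (deg_hn ha h1).hd, hV a ha g' (deg_hn ha hg').hd, CG.QQG_congr (D := D2 L) h4] at h5
    exact le_of_mul_le_mul_left h5 hq
  · rintro ⟨h1, h2, h3, h4⟩
    refine ⟨h1, by rw [mc_TT0]; exact h3, fun g hg h0 => ?_⟩
    rw [mc_TT0] at h0
    have h5 := h4 g (deg_hn ha hg) h0
    rw [hV a ha f h2.hd, hV a ha g (deg_hn ha hg).hd]
    exact mul_le_mul_of_nonneg_left h5 hq.le

/-- all the conclusions; `ω` is the contribution of the central zero -/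
structure OutX (V : ℝ → (ℝ → ℂ) → ℝ) (Λ : ℂ → ℂ) (P : ℂ → Prop) (c : ℂ) (r ω : ℝ) (E : ℝ → ℝ) (q : ℝ) : Prop where
  ex : (∀ s : ℂ, Λ s = 0 → s.re = r) → ∀ (a : ℝ) (ν : ℕ∞), 0 < a → ∃ f, Ext V c a ν f
  str : (∀ s : ℂ, Λ s = 0 → s.re = r) → ∀ (a : ℝ) (ν : ℕ∞) (f : ℝ → ℂ), 0 < a → Ext V c a ν f →
    ω < V a f ∧ (∀ g, Ext V c a ν g → g =ᵐ[volume] f) ∧ (∀ s, MC c f (2 * c - s) = MC c f s) ∧
      (∀ s, MC c f ((starRingEnd ℂ) s) = (starRingEnd ℂ) (MC c f s)) ∧ ∀ s, MC c f s = 0 → s.re = r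
  val : (∀ s : ℂ, Λ s = 0 → s.re = r) → ∀ b : ℝ, ∃ K A : ℝ, ∀ (a : ℝ) (ν : ℕ∞) (f : ℝ → ℂ), A ≤ a → Large K a ν → Ext V c a ν f →
    V a f ≤ ω + Real.exp (-(b * a ^ 2 * Real.log a))
  coll : (∀ s : ℂ, Λ s = 0 → s.re = r) → ∀ b R ε : ℝ, 0 < b → 0 < ε → ∃ A : ℝ, ∀ (a : ℝ) (ν : ℕ∞) (e f : ℝ → ℂ), A ≤ a → Large b a ν →
    Ext V c a ν e → Deg c a ν f → ∀ s : ℂ, ‖s - c‖ ≤ R →
      (V a e - ω) * ‖MC c f s - MC c f c * (XC P c s * SC c a ν s)‖ ^ 2 ≤ ε * (V a f - ω * ‖MC c f c‖ ^ 2)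
  conv : (∀ s : ℂ, Λ s = 0 → s.re = r) → ∀ R ε : ℝ, 0 < ε → ∃ K A : ℝ, ∀ (a : ℝ) (ν : ℕ∞) (f : ℝ → ℂ), A ≤ a → Large K a ν →
    Ext V c a ν f → ∀ s : ℂ, ‖s - c‖ ≤ R → ‖MC c f s - XC P c s‖ ≤ ε
  zer : (∀ s : ℂ, Λ s = 0 → s.re = r) → ∀ ρ : ℂ, Λ ρ = 0 → ρ ≠ c → ∀ b : ℝ, ∃ K A : ℝ, ∀ (a : ℝ) (ν : ℕ∞) (f : ℝ → ℂ), A ≤ a → Large K a ν →
    Ext V c a ν f → ∃ t : ℝ, MC c f (c + t * I) = 0 ∧ |t - ρ.im| ≤ Real.exp (-(b * a ^ 2 * Real.log a))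
  rateV : (∀ s : ℂ, Λ s = 0 → s.re = r) → ∀ b : ℝ, b < 2 * q → ∃ A : ℝ, ∀ a : ℝ, A ≤ a → ∃ n : ℕ, ∀ (ν : ℕ∞) (f : ℝ → ℂ), (n : ℕ∞) ≤ ν →
    Ext V c a ν f → V a f ≤ ω + Real.exp (-(b * E a))
  rateZ : (∀ s : ℂ, Λ s = 0 → s.re = r) → ∀ ρ : ℂ, Λ ρ = 0 → ρ ≠ c → ∀ b : ℝ, b < 2 * q → ∃ A : ℝ, ∀ a : ℝ, A ≤ a → ∃ n : ℕ,
    ∀ (ν : ℕ∞) (f : ℝ → ℂ), (n : ℕ∞) ≤ ν → Ext V c a ν f → ∃ t : ℝ, MC c f (c + t * I) = 0 ∧ |t - ρ.im| ≤ Real.exp (-(b * E a))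
  neg : ¬ (∀ s : ℂ, Λ s = 0 → s.re = r) → ∀ n : ℝ → ℕ, Tendsto (fun a : ℝ => (n a : ℝ) / a) atTop atTop →
    ∃ A : ℝ, ∀ a : ℝ, A ≤ a → ∀ B : ℝ, ∃ f, Trig a (n a) f ∧ MC c f c = 1 ∧ V a f < -B
  iffE : ∀ n : ℝ → ℕ∞, (∀ K : ℝ, ∀ᶠ a in atTop, ∀ j : ℕ, n a = j → K * a ≤ j) →
    ((∀ s : ℂ, Λ s = 0 → s.re = r) ↔ ∀ A : ℝ, ∃ a : ℝ, A ≤ a ∧ ∃ f, Ext V c a (n a) f)

end

end Pool.Agent.Q286.XG
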