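import Pool.Agent.Q286.XG.Out

set_option autoImplicit false

/-!
# Project EXG: the theorem for an L-function, in any normalisation
-/

open Filter Topology MeasureTheory Complex
open Pool.Agent.Q240 Pool.Agent.Q240.CD
open Pool.Agent.Q240.CG (m0 mg zg)
open Pool.Agent.Q286.TR

namespace Pool.Agent.Q286.XG

section

variable {L : LFunction} {Λ : ℂ → ℂ} {c : ℂ} {r : ℝ} {k : ℂ} {V : ℝ → (ℝ → ℂ) → ℝ} {q : ℝ} {P : ℂ → Prop}

lemma rhg_iff (L : LFunction) : GRH L ↔ RHG (D := D2 L) := by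
  rw [grh_iff]
  exact ⟨fun h ρ => h ρ ρ.2, fun h s hs => h ⟨s, hs⟩⟩

lemma order_shift {F G : ℂ → ℂ} {k : ℂ} (hk : k ≠ 0) {d : ℂ} (hG : Differentiable ℂ G) (h : ∀ s, F s = k * G (s + d)) (s : ℂ) :
    analyticOrderNatAt F s = analyticOrderNatAt G (s + d) := by
  have h1 : F = fun s => k * G (s + d) := funext h
  have h2 : AnalyticAt ℂ (fun z : ℂ => z + d) s := by fun_prop
  have h3 : deriv (fun z : ℂ => z + d) s ≠ 0 := by
    rw [deriv_add_const]
    simp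
  have h4 := analyticOrderAt_comp_of_deriv_ne_zero (f := G) h2 h3
  have h5 : analyticOrderAt F s = analyticOrderAt (fun z => G (z + d)) s := by
    rw [h1]
    have h6 : AnalyticAt ℂ (fun z => G (z + d)) s := (hG.comp (by fun_prop : Differentiable ℂ fun z : ℂ => z + d)).analyticAt s
    have h7 : (fun s => k * G (s + d)) = (fun _ => k) * fun z => G (z + d) := rfl
    rw [h7, analyticOrderAt_mul analyticAt_const h6]
    have h8 : analyticOrderAt (fun _ : ℂ => k) s = 0 := by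
      rw [analyticOrderAt_eq_zero]
      exact Or.inr hk
    rw [h8, zero_add]
  unfold analyticOrderNatAt
  rw [h5]
  exact congrArg ENat.toNat h4

lemma m0_eq (L : LFunction) : (m0 (D := D2 L) : ℝ) = 2 * (analyticOrderNatAt L.Λ (1 / 2) : ℝ) := by
  have e : (starRingEnd ℂ) (1 / 2 : ℂ) = 1 / 2 := by rw [map_div₀, map_one, map_ofNat]
  have hw : CG.wtD (D1 L) (1 / 2) = analyticOrderNatAt L.Λ (1 / 2) := by
    unfold CG.wtD
    by_cases h : (1 / 2 : ℂ) ∈ (D1 L).Zs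
    · rw [if_pos h]
      rfl
    · rw [if_neg h]
      have h1 : L.Λ (1 / 2) ≠ 0 := h
      have h2 : analyticOrderAt L.Λ (1 / 2) = 0 := by
        rw [analyticOrderAt_eq_zero]
        exact Or.inr h1
      unfold analyticOrderNatAt
      rw [h2]
      rfl
  have h1 : CG.m0 (D := D2 L) = CG.wtD (D1 L) (1 / 2) + CG.wtD (D1 L) ((starRingEnd ℂ) (1 / 2)) := by
    unfold CG.m0
    by_cases h : (1 / 2 : ℂ) ∈ (D2 L).Zs
    · rw [if_pos h]
      rfl
    · rw [if_neg h]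
      have h3 : (1 / 2 : ℂ) ∉ (D1 L).Zs := fun h4 => h (Or.inl h4)
      rw [e]
      unfold CG.wtD
      rw [if_neg h3]
  rw [h1, e, hw]
  push_cast
  ring

lemma trig_mono {a : ℝ} {m n : ℕ} (hmn : m ≤ n) {f : ℝ → ℂ} (h : Trig a m f) : Trig a n f := by
  obtain ⟨c, hc⟩ := h
  refine ⟨fun k => if k ∈ Finset.Icc (-(m : ℤ)) m then c k else 0, fun x => ?_⟩
  rw [hc x]
  split_ifs with hx
  · have hsub : Finset.Icc (-(m : ℤ)) m ⊆ Finset.Icc (-(n : ℤ)) n := Finset.Icc_subset_Icc (by omega) (by omega)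
    rw [← Finset.sum_subset hsub]
    · refine Finset.sum_congr rfl fun j hj => ?_
      simp only
      rw [if_pos hj]
    · intro j _ hj
      simp only
      rw [if_neg hj, zero_mul]
  · rfl

/-- the constant `q` is absorbed -/
lemma absorb {q x y : ℝ} (hq : 0 < q) (hxy : x < y) {E : ℝ → ℝ} (hE : Tendsto E atTop atTop) :
    ∀ᶠ a : ℝ in atTop, q * Real.exp (-(y * E a)) ≤ Real.exp (-(x * E a)) := hE.eventually (exp_half' hq hxy)

/-- **The results in any normalisation.** -/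
theorem outX (J : JX) (hΛd : Differentiable ℂ Λ) (hc : c = r) (hk : k ≠ 0) (hΛ : ∀ s, L.Λ s = k * Λ (s + (c - 1 / 2))) (hq : 0 < q)
    (hV : ∀ a, 0 < a → ∀ f : ℝ → ℂ, Y23.G.Hd a f → V a f = q * Y23.G.QQ (D := D2 L) f)
    (hP : ∀ ρ, P ρ ↔ (Λ ρ = 0 ∨ Λ ((starRingEnd ℂ) ρ) = 0) ∧ 0 < ρ.im)
    {E : ℝ → ℝ} (hE : Tendsto E atTop atTop) {Q : ℝ} (hRG : RG (D := D2 L) E Q) :
    OutX V Λ P c r (q * (2 * analyticOrderNatAt Λ c)) E Q := by
  have hrh : (∀ s : ℂ, Λ s = 0 → s.re = r) ↔ RHG (D := D2 L) := by rw [← rh_iff (L := L) hc hk hΛ, rhg_iff]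
  have hX := fun {a : ℝ} (ha : 0 < a) {ν : ℕ∞} {f : ℝ → ℂ} => ext_XtG (L := L) (c := c) (ν := ν) (f := f) hq hV ha
  have hω : q * (2 * (analyticOrderNatAt Λ c : ℝ)) = q * (m0 (D := D2 L) : ℝ) := by
    rw [m0_eq, order_shift hk hΛd hΛ (1 / 2), add_sub_cancel]
  have hVx : ∀ {a : ℝ}, 0 < a → ∀ {ν : ℕ∞} {f : ℝ → ℂ}, Deg c a ν f → V a f = q * Y23.G.QQ (D := D2 L) f :=
    fun {a} ha {ν} {f} hf => hV a ha f (deg_hn ha hf).hd
  have hxc := fun s => xc_eq (L := L) hc hk hΛ hP s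
  have hxr : ∀ s, XC P c s = CG.XrG (D := D2 L) (1 / 2 + (s - c)) := by
    intro s
    rw [hxc, xred_eq]
    congr 1
    ring
  have hzs : ∀ ρ, Λ ρ = 0 → ρ - (c - 1 / 2) ∈ (D2 L).Zs := by
    intro ρ hρ
    left
    show L.Λ (ρ - (c - 1 / 2)) = 0
    rw [hΛ, sub_add_cancel, hρ, mul_zero]
  have him : ∀ ρ : ℂ, (ρ - (c - 1 / 2)).im = ρ.im := by
    intro ρ
    rw [hc, Complex.sub_im, Complex.sub_im, Complex.ofReal_im]
    norm_num
  have hne : ∀ ρ : ℂ, ρ ≠ c → ρ - (c - 1 / 2) ≠ 1 / 2 := by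
    intro ρ hρ h
    apply hρ
    linear_combination h
  have hline : ∀ (f : ℝ → ℂ) (t : ℝ), MC c f (c + t * I) = Y23.TT f (I * t) := by
    intro f t
    rw [mc_line, M_line]
    congr 1
    ring
  have tL := tend_L
  refine ⟨fun hR a ν ha => ?_, fun hR a ν f ha hf => ?_, fun hR b => ?_, fun hR b R ε hb hε => ?_, fun hR R ε hε => ?_, fun hR ρ hρ hρ2 b => ?_,
    fun hR b hb => ?_, fun hR ρ hρ hρ2 b hb => ?_, fun hR n hn => ?_, fun n hn => ?_⟩
  · -- existence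
    obtain ⟨f, hf⟩ := ResX.ex (D := D2 L) (resX (D := D2 L) J (hrh.1 hR)) a ν ha
    obtain ⟨g, hg, h1⟩ := hn_deg c ha hf.1
    refine ⟨g, (hX ha).2 ⟨hg, deg_hn ha hg, by rw [h1]; exact hf.2.1, fun h hh h0 => ?_⟩⟩
    rw [CG.QQG_congr (D := D2 L) h1]
    exact hf.2.2 h hh h0
  · -- structure
    obtain ⟨h1, h2⟩ := (hX ha).1 hf
    obtain ⟨h3, h4, h5, h6, h7⟩ := ResX.str (D := D2 L) (resX (D := D2 L) J (hrh.1 hR)) a ν f ha h2
    refine ⟨?_, fun g hg => ?_, fun s => ?_, fun s => ?_, fun s hs => ?_⟩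
    · rw [hω, hVx ha h1]
      exact mul_lt_mul_of_pos_left h3 hq
    · obtain ⟨h8, h9⟩ := (hX ha).1 hg
      have h10 := h4 g h9
      have hF1 := (deg_hn ha h8).1
      have hF2 := (deg_hn ha h1).1
      have h11 : Y23.N2 (fun x => g x - f x) = 0 := Y23.G.N2_zero_of_TT (DZ := D2 L) (hF1.sub hF2) fun w => by
        rw [Y23.TT_sub hF1 hF2, h10, sub_self]
      have h12 : (fun x => ‖g x - f x‖ ^ 2) =ᵐ[volume] 0 := by
        rw [← integral_eq_zero_iff_of_nonneg (fun x => sq_nonneg _) (hF1.sub hF2).sq_int]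
        exact h11
      filter_upwards [h12] with x hx
      have h13 : ‖g x - f x‖ = 0 := by
        have : ‖g x - f x‖ ^ 2 = 0 := hx
        exact pow_eq_zero_iff two_ne_zero |>.1 this
      exact sub_eq_zero.1 (norm_eq_zero.1 h13)
    · rw [mc_TT, mc_TT]
      have e : 2 * c - s - c = -(s - c) := by ring
      rw [e, h5]
    · rw [mc_TT, mc_TT]
      have e : (starRingEnd ℂ) s - c = (starRingEnd ℂ) (s - c) := by rw [map_sub, hc, conj_ofReal]
      rw [e, h6]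
    · have h8 := h7 (s - c) (by rw [← mc_TT]; exact hs)
      rw [Complex.sub_re, hc, Complex.ofReal_re] at h8
      linarith
  · -- values
    obtain ⟨K, A, hK, h⟩ := ResX.val (D := D2 L) (resX (D := D2 L) J (hrh.1 hR)) (b + 1)
    obtain ⟨A2, hA2⟩ := eventually_atTop.1 ((absorb hq (lt_add_one b) tL).and (eventually_gt_atTop 0))
    refine ⟨K, max A A2, fun a ν f ha hν hf => ?_⟩
    obtain ⟨h1, ha0⟩ := hA2 a ((le_max_right _ _).trans ha)
    obtain ⟨h2, h3⟩ := (hX ha0).1 hf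
    have h4 := h a ν ((le_max_left _ _).trans ha) (large_big hν) f h3
    rw [hω, hVx ha0 h2]
    have e1 : (b + 1) * (a ^ 2 * Real.log a) = (b + 1) * a ^ 2 * Real.log a := by ring
    have e2 : b * (a ^ 2 * Real.log a) = b * a ^ 2 * Real.log a := by ring
    rw [e1, e2] at h1
    calc q * Y23.G.QQ (D := D2 L) f ≤ q * ((m0 (D := D2 L) : ℝ) + Real.exp (-((b + 1) * a ^ 2 * Real.log a))) := mul_le_mul_of_nonneg_left h4 hq.le
      _ = q * (m0 (D := D2 L) : ℝ) + q * Real.exp (-((b + 1) * a ^ 2 * Real.log a)) := by ring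
      _ ≤ _ := by linarith
  · -- collapse
    obtain ⟨A, h⟩ := ResX.coll (D := D2 L) (resX (D := D2 L) J (hrh.1 hR)) b hb R ε hε
    refine ⟨max A 1, fun a ν e f ha hν he hf s hs => ?_⟩
    have ha0 : 0 < a := lt_of_lt_of_le one_pos ((le_max_right _ _).trans ha)
    obtain ⟨h1, h2⟩ := (hX ha0).1 he
    have h3 := h a ν e f ((le_max_left _ _).trans ha) (large_big hν) h2 (deg_hn ha0 hf) (s - c) hs
    rw [hω, hVx ha0 h1, hVx ha0 hf, mc_TT0, mc_TT, hxr, SC_eq]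
    calc (q * Y23.G.QQ (D := D2 L) e - q * (m0 (D := D2 L) : ℝ)) *
          ‖Y23.TT f (s - c) - Y23.TT f 0 * (CG.XrG (D := D2 L) (1 / 2 + (s - c)) * SpN a ν (-I * (s - c)))‖ ^ 2 =
        q * ((Y23.G.QQ (D := D2 L) e - (m0 (D := D2 L) : ℝ)) *
          ‖Y23.TT f (s - c) - Y23.TT f 0 * (CG.XrG (D := D2 L) (1 / 2 + (s - c)) * SpN a ν (-I * (s - c)))‖ ^ 2) := by ring
      _ ≤ q * (ε * (Y23.G.QQ (D := D2 L) f - (m0 (D := D2 L) : ℝ) * ‖Y23.TT f 0‖ ^ 2)) := mul_le_mul_of_nonneg_left h3 hq.le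
      _ = _ := by ring
  · -- convergence
    obtain ⟨K, A, hK, h⟩ := ResX.conv (D := D2 L) (resX (D := D2 L) J (hrh.1 hR)) R ε hε
    refine ⟨K, max A 1, fun a ν f ha hν hf s hs => ?_⟩
    have ha0 : 0 < a := lt_of_lt_of_le one_pos ((le_max_right _ _).trans ha)
    obtain ⟨h1, h2⟩ := (hX ha0).1 hf
    rw [mc_TT, hxr]
    exact h a ν f ((le_max_left _ _).trans ha) (large_big hν) h2 (s - c) hs
  · -- zeros
    obtain ⟨K, A, hK, h⟩ := ResX.zer (D := D2 L) (resX (D := D2 L) J (hrh.1 hR)) _ (hzs ρ hρ) (hne ρ hρ2) b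
    refine ⟨K, max A 1, fun a ν f ha hν hf => ?_⟩
    have ha0 : 0 < a := lt_of_lt_of_le one_pos ((le_max_right _ _).trans ha)
    obtain ⟨h1, h2⟩ := (hX ha0).1 hf
    obtain ⟨t, h3, h4⟩ := h a ν f ((le_max_left _ _).trans ha) (large_big hν) h2
    refine ⟨t, by rw [hline]; exact h3, ?_⟩
    rw [him] at h4
    exact h4
  · -- the rate of the values
    obtain ⟨A, h⟩ := ResX.rateV (D := D2 L) (resX (D := D2 L) J (hrh.1 hR)) E Q hE hRG ((b + 2 * Q) / 2) (by linarith)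
    obtain ⟨A2, hA2⟩ := eventually_atTop.1 ((absorb hq (by linarith : b < (b + 2 * Q) / 2) hE).and (eventually_gt_atTop 0))
    refine ⟨max A A2, fun a ha => ?_⟩
    obtain ⟨h1, ha0⟩ := hA2 a ((le_max_right _ _).trans ha)
    obtain ⟨n, hn⟩ := h a ((le_max_left _ _).trans ha)
    refine ⟨n, fun ν f hν hf => ?_⟩
    obtain ⟨h2, h3⟩ := (hX ha0).1 hf
    have h4 := hn ν f hν h3
    rw [hω, hVx ha0 h2]
    calc q * Y23.G.QQ (D := D2 L) f ≤ q * ((m0 (D := D2 L) : ℝ) + Real.exp (-((b + 2 * Q) / 2 * E a))) := mul_le_mul_of_nonneg_left h4 hq.le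
      _ = q * (m0 (D := D2 L) : ℝ) + q * Real.exp (-((b + 2 * Q) / 2 * E a)) := by ring
      _ ≤ _ := by linarith
  · -- the rate of the zeros
    obtain ⟨A, h⟩ := ResX.rateZ (D := D2 L) (resX (D := D2 L) J (hrh.1 hR)) E Q hE hRG b hb _ (hzs ρ hρ) (hne ρ hρ2)
    refine ⟨max A 1, fun a ha => ?_⟩
    have ha0 : 0 < a := lt_of_lt_of_le one_pos ((le_max_right _ _).trans ha)
    obtain ⟨n, hn⟩ := h a ((le_max_left _ _).trans ha)
    refine ⟨n, fun ν f hν hf => ?_⟩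
    obtain ⟨h1, h2⟩ := (hX ha0).1 hf
    obtain ⟨t, h3, h4⟩ := hn ν f hν h2
    refine ⟨t, by rw [hline]; exact h3, ?_⟩
    rw [him] at h4
    exact h4
  · -- the Riemann hypothesis fails
    obtain ⟨A, hA⟩ := eventually_atTop.1 ((J.neg (D := D2 L) (fun h => hR (hrh.2 h)) n hn).and (eventually_gt_atTop 0))
    refine ⟨A, fun a ha B => ?_⟩
    obtain ⟨h1, ha0⟩ := hA a ha
    obtain ⟨f, hf, h2, h3⟩ := h1 (B / q)
    obtain ⟨g, hg, h4⟩ := Hn_Tg a_rep a_trigInv ha0 hf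
    refine ⟨g, hg, by rw [mc_TT0, h4, h2], ?_⟩
    rw [hV a ha0 g (Tg_Hn ha0 hg).hd, CG.QQG_congr (D := D2 L) h4]
    calc q * Y23.G.QQ (D := D2 L) f < q * (-(B / q)) := mul_lt_mul_of_pos_left h3 hq
      _ = -B := by field_simp
  · -- the equivalence
    constructor
    · intro hR A
      refine ⟨max A 1, le_max_left _ _, ?_⟩
      have ha0 : (0 : ℝ) < max A 1 := lt_of_lt_of_le one_pos (le_max_right _ _)
      obtain ⟨f, hf⟩ := ResX.ex (D := D2 L) (resX (D := D2 L) J (hrh.1 hR)) (max A 1) (n (max A 1)) ha0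
      obtain ⟨g, hg, h1⟩ := hn_deg c ha0 hf.1
      refine ⟨g, (hX ha0).2 ⟨hg, deg_hn ha0 hg, by rw [h1]; exact hf.2.1, fun h hh h0 => ?_⟩⟩
      rw [CG.QQG_congr (D := D2 L) h1]
      exact hf.2.2 h hh h0
    · intro h
      by_contra hR
      -- a finite degree below `n a`
      obtain ⟨m, hm⟩ : ∃ m : ℝ → ℕ, ∀ a, m a = if n a = ⊤ then ⌈a ^ 2⌉₊ else (n a).toNat := ⟨_, fun _ => rfl⟩
      have hmle : ∀ a, ((m a : ℕ) : ℕ∞) ≤ n a := by
        intro a
        rw [hm]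
        split_ifs with h1
        · rw [h1]; exact le_top
        · obtain ⟨j, hj⟩ := ENat.ne_top_iff_exists.1 h1
          rw [← hj, ENat.toNat_coe]
      have hmt : Tendsto (fun a : ℝ => (m a : ℝ) / a) atTop atTop := by
        rw [tendsto_atTop]
        intro K
        filter_upwards [hn K, eventually_ge_atTop K, eventually_gt_atTop 0] with a h1 h2 ha
        rw [le_div_iff₀ ha]
        by_cases h3 : n a = ⊤
        · have h4 := hm a
          rw [if_pos h3] at h4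
          rw [h4]
          refine le_trans ?_ (Nat.le_ceil _)
          nlinarith
        · obtain ⟨j, hj⟩ := ENat.ne_top_iff_exists.1 h3
          have h4 := hm a
          rw [if_neg h3, ← hj, ENat.toNat_coe] at h4
          rw [h4]
          exact h1 j hj.symm
      obtain ⟨A, hA⟩ := eventually_atTop.1 (J.neg (D := D2 L) (fun h => hR (hrh.2 h)) m hmt)
      obtain ⟨a, ha, f, hf⟩ := h (max A 1)
      have ha0 : 0 < a := lt_of_lt_of_le one_pos ((le_max_right _ _).trans ha)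
      obtain ⟨-, h2⟩ := (hX ha0).1 hf
      obtain ⟨g, hg, h3, h4⟩ := hA a ((le_max_left _ _).trans ha) (-(Y23.G.QQ (D := D2 L) f))
      rw [neg_neg] at h4
      have hgn : Y23.G.F.Hn a (n a) g := ⟨hg.1, hg.2.1, fun j hj => hg.2.2 j (lt_of_le_of_lt (hmle a) hj)⟩
      exact absurd (h2.2.2 g hgn h3) (not_le.2 h4)

end

end Pool.Agent.Q286.XG
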