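import Pool.Agent.Q286.XG.Def

set_option autoImplicit false
set_option linter.unusedVariables false

/-!
# Project EXG: statements of the lemma jobs

Every statement is a `def S_xxx : Prop`; prove `theorem xxx : S_xxx` in a file of your own (the hypotheses `h1 : S_yyy` may be used). All of
them are ports of the statements of project EX (`Pool/Agent/Q240/EX/Stm*.lean`, zeta) to zero data; the library is `Pool.Agent.Y23.G`
(instead of `Pool.Agent.Y23`; same names: `QQ`, `SS`, `QB`, `Hd`, `LL`, `Dom`, `Hd_iff`, `dom_of_Hd`, `coer`, `complete_seq`, `QB_add_left`, `QB_smul_left`, `QB_conj`, `QB_self`,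
`QQ_smul`, `QQ_eq_SS` (file `Y23/G/Ts5.lean`), `GM`, `KK`, `exists_ground`, `bq_nonneg`) and project CG, everything proved: `CG.jb : CG.JB` (`jb.sum`, `jb.pos`, `jb.form`, `jb.enum`,
`jb.rate0`, `jb.cnt`, `jb.zc`, ...), `CG.unique_set` (a transform which vanishes at all zeros except possibly the central one is zero), `CG.LG_Lp0`,
`CG.real_elemG`, `CG.QQ_cj`, ...; the proof of `CG.resG` in `Q240/CG/ThA.lean` and of `CG.finA` in `Q240/CG/Fin.lean` show how they are used.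

The only new point: there may be a central zero (`1/2 ∈ D.Zs`), multiplicity `m0`. It contributes `m0 * ‖TT f 0‖²` to the form. Since extremal functions have
`TT f 0 = 1`, the form without this term is minimised by the same polynomials `q0` as in EX: nothing else changes.
-/

open Polynomial Filter Topology Finset MeasureTheory
open Pool.Agent.Q240 Pool.Agent.Q240.CD
open Pool.Agent.Q240.CG (m0 mg zg)
open Pool.Agent.Q240.EX (Lc Big)

namespace Pool.Agent.Q286.XG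

/-- **XtEG** (port of `EX.S_XtE`): extremal functions exist, for every degree `ν ≤ ∞`.
Proof. Under RH `QQ = SS ≥ 0`. `GM a > 0`: `Y23.G.exists_ground` gives `e` with `KK a e` (`QQ e = GM a * N2 e`), `N2 e > 0`; `GM a ≤ 0` would give `TT e = 0` by `CG.jb.pos`. So
`QQ f ≥ GM a * N2 f` for `Hd a f` (`bq_nonneg`). Then as in `EX.S_XtE`: minimising sequence, parallelogram law, `coer`, `complete_seq` (`Y23/G/Li.lean`, `Y23/F/Gs.lean`). -/
def S_XtEG : Prop := ∀ [D : Y23.G.ZD] [Y23.G.ZC], RHG → ∀ (a : ℝ) (ν : ℕ∞), 0 < a → ∃ f : ℝ → ℂ, XtG a ν f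

/-- **XtPG** (port of `EX.S_XtP`): properties of the extremal functions, for every degree `ν ≤ ∞`.
Proof: as in `EX.S_XtP`; `m0 < QQ f`: if `SS f ≤ m0 = m0 * ‖TT f 0‖²`, all other terms of `SS f` vanish, `TT f` vanishes at all zeros except the central one,
so `TT f = 0` by `CG.unique_set`, a contradiction to `TT f 0 = 1`. -/
def S_XtPG : Prop := ∀ [D : Y23.G.ZD] [Y23.G.ZC] [CG.SD], RHG → ∀ (a : ℝ) (ν : ℕ∞) (f : ℝ → ℂ), 0 < a → XtG a ν f →
  (m0 : ℝ) < Y23.G.QQ f ∧ (∀ g : ℝ → ℂ, XtG a ν g → ∀ w, Y23.TT g w = Y23.TT f w) ∧ (∀ w, Y23.TT f (-w) = Y23.TT f w) ∧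
    (∀ w, Y23.TT f ((starRingEnd ℂ) w) = (starRingEnd ℂ) (Y23.TT f w)) ∧ (∀ w, Y23.TT f w = 0 → w.re = 0) ∧
    ∀ g : ℝ → ℂ, Y23.G.F.Hn a ν g → Y23.G.QB f g = (Y23.G.QQ f : ℂ) * (starRingEnd ℂ) (Y23.TT g 0)

/-- **UZcG** (port of `EX.S_UZc`, proof in `Pool/Agent/Q96/EX/UZc.lean`): the collapse of the form for all degrees `n ≥ c a²`. Uses `EX.S_MainU`, `EX.S_Fam2Zc`.
Proof: `LG a n (P * P) = m0 * P(0)² + Lp g M P` (`CG.LG_Lp0`), `M = EX.Mn g m (a, n)`, `m j = mg (γ j)`; definiteness of `Lam g M`: the block `hdef` in the proof of `CG.resG`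
(`Q240/CG/ThA.lean`, it uses `unique_set`). `TT f (I z) = (A(z) + i B(z)) S(z)`, so `QQ f - m0 ‖TT f 0‖² = Lp A + Lp B` (`‖TT f 0‖² = A(0)² + B(0)²`), and the
hypothesis on `δ` gives `δ ≤ Lam (q0 * q0)` (`q0(x²) S` is the transform of an admissible function, with `QQ = m0 + Lam (q0 * q0)`). -/
def S_UZcG : Prop := EX.S_MainU → EX.S_Fam2Zc → ∀ [D : Y23.G.ZD] [Y23.G.ZC] [CG.SD], RHG → ∀ γ : ℕ → ℝ, CG.ENG γ → ∀ c : ℝ, 0 < c → ∀ R ε : ℝ, 0 < ε →
  ∀ᶠ p : ℝ × ℕ in Lc c, ∀ δ : ℝ, (∀ g : ℝ → ℂ, Y23.G.F.Hn p.1 (p.2 : ℕ∞) g → Y23.TT g 0 = 1 → δ + m0 ≤ Y23.G.QQ g) →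
    ∀ f : ℝ → ℂ, Y23.G.F.Hn p.1 (p.2 : ℕ∞) f → ∀ z : ℂ, ‖z‖ ≤ R →
      δ * ‖Y23.TT f (Complex.I * z) - Y23.TT f 0 * (GC (fun j => γ j ^ 2) (z ^ 2) * Sp p.1 p.2 z)‖ ^ 2 ≤
        ε * (Y23.G.QQ f - m0 * ‖Y23.TT f 0‖ ^ 2)

/-- **UZtG** (port of `EX.S_UZt`): the same for all degrees `ν ≥ c a²`, also infinite. Uses `S_UZcG`, `EX.S_Dn`, `EX.S_LimS2` or `a_near`/`a_sn`.
Proof: for `ν = ⊤` approximate `f` by `h ∈ Hn a n`, `LL (f - h) → 0` (`EX.S_Dn`), where `n` may be increased (`Hn a n ⊆ Hn a n'` for `n ≤ n'`), so `S_{a,n}(z) → 1` uniformly for `‖z‖ ≤ R` for fixed `a`, `n → ∞`;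
the hypothesis on `δ` for `⊤` implies that for `n`; `TT h → TT f`, `QQ h → QQ f` (`QQ = SS`, `dom_of_Hd`). -/
def S_UZtG : Prop := S_UZcG → EX.S_MainU → EX.S_Fam2Zc → EX.S_Dn → ∀ [D : Y23.G.ZD] [Y23.G.ZC] [CG.SD], RHG → ∀ γ : ℕ → ℝ, CG.ENG γ →
  ∀ c : ℝ, 0 < c → ∀ R ε : ℝ, 0 < ε → ∃ A : ℝ, ∀ (a : ℝ) (ν : ℕ∞), A ≤ a → Big c a ν → ∀ δ : ℝ,
  (∀ g : ℝ → ℂ, Y23.G.F.Hn a ν g → Y23.TT g 0 = 1 → δ + m0 ≤ Y23.G.QQ g) →
    ∀ f : ℝ → ℂ, Y23.G.F.Hn a ν f → ∀ z : ℂ, ‖z‖ ≤ R →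
      δ * ‖Y23.TT f (Complex.I * z) - Y23.TT f 0 * (GC (fun j => γ j ^ 2) (z ^ 2) * SpN a ν z)‖ ^ 2 ≤
        ε * (Y23.G.QQ f - m0 * ‖Y23.TT f 0‖ ^ 2)

/-- **NuG** (port of `EX.S_Nu`, proof in `Pool/Agent/Q96/EX/Nu.lean`): for fixed `a` the extremal functions converge as the degree tends to infinity. -/
def S_NuG : Prop := EX.S_Dn → S_XtEG → S_XtPG → ∀ [D : Y23.G.ZD] [Y23.G.ZC] [CG.SD], RHG → ∀ a : ℝ, 0 < a → ∀ R ε : ℝ, 0 < ε →
  ∃ n : ℕ, ∀ (ν : ℕ∞) (f F : ℝ → ℂ), (n : ℕ∞) ≤ ν → XtG a ν f → XtG a ⊤ F →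
    Y23.G.QQ f ≤ Y23.G.QQ F + ε ∧ ∀ w : ℂ, ‖w‖ ≤ R → ‖Y23.TT f w - Y23.TT F w‖ ≤ ε

/-- **NegG** (port of `EX.S_NegX`, proof in `Pool/Agent/Q96/EX/NegX.lean`): if the Riemann hypothesis fails the form is not bounded from below on `TT f 0 = 1`.
Proof. Let `m a = min (n a) ⌈a²⌉₊`. By `CG.jb.test` (`CE.S_Test`; or `CE.rate`, see `TR.main_rate` in `Q286/TR/Base.lean`) there is for large `a` a space of dimension `k` of trigonometric polynomials of degree at most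
`m a` on which `QQ < 0` (`≠ 0`), where `k` is the number of the chosen zeros with real part `> 1/2`. Case 1: there is a zero `ρ` off the line which is not real; we may assume `Re ρ > 1/2` (`ZD.refl`); then `conj ρ` is another
one (`CG.SD`), `k = 2`, so there is `f1 ≠ 0` in the plane with `TT f1 0 = 0`, `QQ f1 < 0`. Case 2: all zeros off the line are real. `k = 1`, `QQ f < 0`. Write `f = fe + fo` (even and odd part; `Hn.rf`), `QQ f = QQ fe + QQ fo`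
(`CG.QQ_rf` or symmetry of the zeros, `CG.SD`), and `QQ fe ≥ 0`: every term is `mu * ‖TT fe w‖²` (on the line `-conj w = w`; for real `w` `-conj w = -w` and `TT fe (-w) = TT fe w`). So `f1 = fo` has `QQ f1 < 0`,
`TT f1 0 = 0`. With `f0 = ek a 0 / (2 a)`: `QQ (f0 + t f1) → -∞` as `t → ∞`. -/
def S_NegG : Prop := ∀ [D : Y23.G.ZD] [Y23.G.ZC] [CG.SD], ¬ RHG → ∀ n : ℝ → ℕ, Tendsto (fun a : ℝ => (n a : ℝ) / a) atTop atTop →
  ∀ᶠ a : ℝ in atTop, ∀ B : ℝ, ∃ f : ℝ → ℂ, Y23.G.F.Hn a (n a : ℕ∞) f ∧ Y23.TT f 0 = 1 ∧ Y23.G.QQ f < -B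

/-- **ValG**: the smallest value tends to the multiplicity of the central zero, faster than `exp (- c a² log a)` for every `c`.
Proof. Let `κ > 0`, `c < 4 κ`, `n a = ⌈κ a²⌉₊` (`CD.ceil_sq`), `K = κ`. Let `q0` be extremal for the masses `EX.Mn g m (a, n a)` (`a_ext`), `g j = γ j ^ 2`. `CG.jb.rate0` (`CE.S_Rate0`; lower bound for the
`γ j` from `CG.jb.cnt`, see the use of `hR0`, `hCnt` in the proof of `CG.resG`): `Lam (q0 * q0) ≤ exp (- c a² log a)`. `CG.real_elemG` gives `f ∈ Hn a (n a)` with `TT f (I z) = q0(z²) S(z)`, so `TT f 0 = 1` and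
`QQ f = m0 + Lam (q0 * q0)` (`LG_Lp0`, `Lp_even`). For `ν ≥ n a` use `Hn a (n a) ⊆ Hn a ν`. -/
def S_ValG : Prop := ∀ [D : Y23.G.ZD] [Y23.G.ZC] [CG.SD], RHG → ∀ c : ℝ, ∃ K A : ℝ, 0 < K ∧ ∀ (a : ℝ) (ν : ℕ∞), A ≤ a → Big K a ν →
  ∀ f : ℝ → ℂ, XtG a ν f → Y23.G.QQ f ≤ (m0 : ℝ) + Real.exp (-(c * a ^ 2 * Real.log a))

/-- **RateLG**: trial functions concentrated at one point of the line, for an L-function of degree `m` and conductor `N`: `cc = π m N^(-1/m)` (`Y23.G.cc`).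
Proof: compare `Y23.G.test_one` (`Y23/G/Ts5.lean`), which is the case where `1/2 + iγ` is not a zero. Let `w1 = i γ`, `k = H370.mult L.X (1/2 + w1)` the order of the zero (may be `0`), and
`H w = L.X (1/2 + w) / (w - w1)^k` (entire; `H w1 ≠ 0`). From `Y23.G.X_all`: `‖L.X (1/2 + w)‖ ≤ exp (Ex A |w.re|) / (1 + w.im²)`; so `‖H w‖ ≤ K exp (Ex A' |w.re|) / (1 + w.im²)` (for `|w - w1| ≥ 1` clear, for
`|w - w1| ≤ 1` by the maximum principle or by continuity on a compact set, `Ex A` is bounded below there). `Y23.G.cut` for `H` and `b = a - η`: `f ∈ Fa (a - η)` with `‖TT f w - H w‖ ≤ C τ`, `τ = exp (B (1+a) - cc exp (2 (a-η)/m))`,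
for `|Re w| ≤ 1`. As in `test_one` convolve with `kap (η/2) x * exp (- w1 x)` (`conv_TT`, `kap_bound`, `TT_kap_zero`) and divide by the value at `w1`: `G ∈ Hd a`, `TT G w1 = 1`. At the zeros `ρ ≠ 1/2 + w1`: `H (ρ - 1/2) = 0`, so
`‖TT G‖ ≤ C' τ / (1 + (Im ρ - γ)²)`, and the term of `1/2 + w1` is `k`. `‖TT G 0‖ ≤ C`. `tau_lim`, `exists_eta'`. (`zd.mul = H370.mult L.X`, which is `0` if `L.X ≠ 0` there.) -/
def S_RateLG : Prop := ∀ [L : Y23.G.LFun], RG (D := Y23.G.zd) (fun a => Real.exp (2 * a / L.m)) (Y23.G.cc (L := L))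

/-- **RateFG** (port of `EX.S_RateF`): the extremal function of infinite degree, with the accuracy of the trial functions.
Proof. First part: `G` for `γ = 0` from `RG` is admissible and `QQ G = SS G`, `mc (1/2) = m0`. Second part: let `w0 = i γ`, `k = mc (1/2 + w0) ≥ 1`, `G` the trial function, `QQ f = m0 + η`, `0 < η ≤ exp (- c E)`. `S_XtPG`: `QB f G = QQ f * conj (TT G 0)`.
Under RH `QB f G = ∑' ρ, mu ρ TT f (ρ - 1/2) conj (TT G (ρ - 1/2))`, the term of `1/2` is `m0 conj (TT G 0)` (`TT f 0 = 1`), the term of `1/2 + w0` is `k TT f w0`, the others are at most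
`√(SS f - m0) √(SS G - k)` (Cauchy, Schwarz; leave the nonnegative terms of both in the sums). So `k ‖TT f w0‖ ≤ η ‖TT G 0‖ + √η √(exp (- c E))`. -/
def S_RateFG : Prop := S_XtPG → ∀ [D : Y23.G.ZD] [Y23.G.ZC] [CG.SD], RHG → ∀ (E : ℝ → ℝ) (q : ℝ), Tendsto E atTop atTop → RG E q → ∀ c : ℝ, c < 2 * q →
  (∀ᶠ a : ℝ in atTop, ∀ f : ℝ → ℂ, XtG a ⊤ f → Y23.G.QQ f ≤ (m0 : ℝ) + Real.exp (-(c * E a))) ∧
  ∀ γ : ℝ, γ ≠ 0 → (1 / 2 + Complex.I * γ) ∈ D.Zs → ∀ᶠ a : ℝ in atTop, ∀ f : ℝ → ℂ, XtG a ⊤ f →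
    ‖Y23.TT f (Complex.I * γ)‖ ≤ Real.exp (-(c * E a))

/-- **RGs**: self-dual L-functions: the zero data of the product with the dual, which are those of `L` with all multiplicities doubled. Uses `S_RateLG`.
Proof: `D2 L = symD (D1 L)`; `SelfDual L` gives `CG.SD` for `D1 L` (`CG.sd_of`), so the zeros are the same and the multiplicities are doubled (`wtD`); the same function `G` with `c < c' < 2 q`. -/
def S_RGs : Prop := S_RateLG → ∀ L : TR.LFunction, TR.SelfDual L →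
  RG (D := TR.D2 L) (fun a => Real.exp (2 * a / L.m)) (Real.pi * L.m * L.Q ^ (-(1 / (L.m : ℝ))))

/-- **RGd**: the general case: the product of `L` with its dual is an L-function of degree `2 m` and conductor `Q²`. Uses `S_RateLG`, `CG.S_RawMul` (proved: `Pool.Agent.Q177.CG.RawMul`).
Proof: the dual has the data `conj (b n)`, `conj (c n)`, `conj α`, root number `conj w`, `X* s = conj (L.Λ (conj s))`. By `RawMul` (with lists, see `Pool/Agent/Q240/CG/Inst.lean`) the product is an `Y23.G.LFun` `P` of degree `2 m`, conductor `Q²`, with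
`P.X s = L.Λ s * conj (L.Λ (conj s))`; its zeros are those of `D2 L` with the same multiplicities (`H370.mult` is additive; `mult X* s = mult X (conj s)`), so `SS` agrees. `2 a / (2 m) = a / m`, `cc = 2 π m (Q²)^(-1/(2m)) = 2 π m Q^(-1/m)`. -/
def S_RGd : Prop := S_RateLG → ∀ L : TR.LFunction,
  RG (D := TR.D2 L) (fun a => Real.exp (a / L.m)) (2 * Real.pi * L.m * L.Q ^ (-(1 / (L.m : ℝ))))

end Pool.Agent.Q286.XG
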